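import Pool.Agent.R228.BS.Sol

/-!
# MP_3fc9e2_pr: the Itô integral of the piecewise constant process, and the equation
-/

open MeasureTheory ProbabilityTheory Filter Topology
open scoped NNReal ENNReal

namespace Pool.Agent.R228.BS

section
variable {Ω : Type*} [mΩ : MeasurableSpace Ω] {F : Filtration ℝ≥0 mΩ} {β : ℝ≥0 → Ω → ℝ}
  {t : ℕ → ℝ≥0} {T : ℝ≥0} {c : ℕ → Ω → ℝ} {P : Measure Ω}

lemma conv0 [IsFiniteMeasure P] {f : ℕ → Ω → ℝ} (hf : ∀ n, AEStronglyMeasurable (f n) P)
    (h0 : ∀ᵐ ω ∂P, Tendsto (fun n => f n ω) atTop (𝓝 0)) {A : ℕ → Set Ω} {δ : ℝ} (hδ : 0 < δ)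
    (hA : ∀ n, ∀ᵐ ω ∂P, ω ∈ A n → δ ≤ f n ω) : Tendsto (fun n => P (A n)) atTop (𝓝 0) := by
  have h1 := tendstoInMeasure_of_tendsto_ae (g := fun _ => (0 : ℝ)) hf h0
  rw [tendstoInMeasure_iff_norm] at h1
  have h2 := h1 δ hδ
  refine tendsto_of_tendsto_of_tendsto_of_le_of_le tendsto_const_nhds h2 (fun n => zero_le) ?_
  intro n
  refine measure_mono_ae ?_
  filter_upwards [hA n] with ω hω hω2
  have h3 := hω hω2
  show δ ≤ ‖f n ω - 0‖
  rw [sub_zero, Real.norm_eq_abs]
  exact h3.trans (le_abs_self _)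

/-- the remainder coefficients -/
noncomputable def rem (c : ℕ → Ω → ℝ) (n k : ℕ) (ω : Ω) : ℝ :=
  if k < n ∧ |c k ω| ≤ n then 0 else c k ω

/-- the truncated coefficients -/
noncomputable def tru (c : ℕ → Ω → ℝ) (n k : ℕ) (ω : Ω) : ℝ :=
  if k < n ∧ |c k ω| ≤ n then c k ω else 0

lemma c_sub_tru (n k : ℕ) (ω : Ω) : c k ω - tru c n k ω = rem c n k ω := by
  unfold tru rem
  split_ifs <;> simp

lemma abs_rem_le (n k : ℕ) (ω : Ω) : |rem c n k ω| ≤ |c k ω| := by
  unfold rem
  split_ifs <;> simp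

lemma abs_tru_le (n k : ℕ) (ω : Ω) : |tru c n k ω| ≤ |c k ω| := by
  unfold tru
  split_ifs <;> simp

lemma abs_tru_le' (n k : ℕ) (ω : Ω) : |tru c n k ω| ≤ n := by
  unfold tru
  split_ifs with h
  · exact h.2
  · simp

lemma tru_zero (n k : ℕ) (hk : n ≤ k) (ω : Ω) : tru c n k ω = 0 := by
  unfold tru
  rw [if_neg]
  rintro ⟨h, _⟩
  omega

lemma tru_meas {m : MeasurableSpace Ω} (n k : ℕ) (h : Measurable[m] (c k)) :
    Measurable[m] (tru c n k) := by
  unfold tru
  refine Measurable.ite ?_ h (@measurable_const _ _ _ m _)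
  by_cases hk : k < n
  · simp only [hk, true_and]
    exact measurableSet_le h.abs (@measurable_const _ _ _ m _)
  · simp only [hk, false_and]
    exact @MeasurableSet.empty _ m

lemma rem_meas {m : MeasurableSpace Ω} (n k : ℕ) (h : Measurable[m] (c k)) :
    Measurable[m] (rem c n k) := by
  have : rem c n k = fun ω => c k ω - tru c n k ω := by
    funext ω; rw [c_sub_tru]
  rw [this]
  exact h.sub (tru_meas n k h)

/-- the error -/
noncomputable def err (c : ℕ → Ω → ℝ) (n : ℕ) (ω : Ω) : ℝ := ∑' k, |rem c n k ω|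

lemma err_nonneg (n : ℕ) (ω : Ω) : 0 ≤ err c n ω := tsum_nonneg fun _ => abs_nonneg _

lemma err_meas (hc : Coef F β t T c) (n : ℕ) : Measurable (err c n) := by
  unfold err
  refine meas_tsum mΩ fun k => ?_
  exact (rem_meas n k ((hc.meas k).mono (F.le _) le_rfl)).abs

lemma err_tendsto (hc : Coef F β t T c) (ω : Ω) : Tendsto (fun n => err c n ω) atTop (𝓝 0) := by
  unfold err
  have h0 : (0 : ℝ) = ∑' _ : ℕ, (0 : ℝ) := by simp
  rw [h0]
  refine tendsto_tsum_of_dominated_convergence (hc.summ ω) (fun k => ?_)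
    (Filter.Eventually.of_forall fun n k => ?_)
  · obtain ⟨N, hN⟩ := exists_nat_ge (|c k ω|)
    refine tendsto_const_nhds.congr' ?_
    filter_upwards [eventually_ge_atTop (max N (k + 1))] with n hn
    have h1 : N ≤ n := (le_max_left _ _).trans hn
    have h2 : k + 1 ≤ n := (le_max_right _ _).trans hn
    have h3 : rem c n k ω = 0 := by
      unfold rem
      rw [if_pos]
      refine ⟨by omega, hN.trans (by exact_mod_cast h1)⟩
    rw [h3, abs_zero]
  · rw [Real.norm_eq_abs, abs_abs]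
    exact abs_rem_le n k ω

lemma rem_summ (hc : Coef F β t T c) (n : ℕ) (ω : Ω) : Summable fun k => |rem c n k ω| :=
  Summable.of_nonneg_of_le (fun _ => abs_nonneg _) (fun k => abs_rem_le n k ω) (hc.summ ω)

lemma tru_summ (hc : Coef F β t T c) (n : ℕ) (ω : Ω) : Summable fun k => |tru c n k ω| :=
  Summable.of_nonneg_of_le (fun _ => abs_nonneg _) (fun k => abs_tru_le n k ω) (hc.summ ω)

/-- the approximating simple process -/
noncomputable def approx {d : ℕ} (hc : Coef F β t T c) (e : E d) (he : ‖e‖ = 1) (n : ℕ) :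
    SimpleProc F d where
  n := n
  t := t
  mono := hc.mono
  ζ k ω := tru c n k ω • e
  meas k := ((tru_meas n k (hc.meas k)).stronglyMeasurable).smul_const e
  bdd := ⟨n, fun k ω => by
    rw [norm_smul, he, mul_one, Real.norm_eq_abs]
    exact abs_tru_le' n k ω⟩

lemma approx_val {d : ℕ} (hc : Coef F β t T c) (e : E d) (he : ‖e‖ = 1) (n : ℕ) (s : ℝ≥0)
    (ω : Ω) : (approx hc e he n).val s ω = pc t (fun k => tru c n k ω) s • e := by
  rw [← pc_finite n (fun j hj => tru_zero n j hj ω) s, Finset.sum_smul]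
  unfold SimpleProc.val
  refine Finset.sum_congr rfl fun k _ => ?_
  by_cases h : s ∈ Set.Ioc (t k) (t (k + 1))
  · rw [Set.indicator_of_mem h]
    exact Set.indicator_of_mem h _
  · rw [Set.indicator_of_notMem h, zero_smul]
    exact Set.indicator_of_notMem h _

lemma approx_int {d : ℕ} (hc : Coef F β t T c) (i : Fin d) (B : ℝ≥0 → Ω → E d)
    (hB : ∀ s ω, B s ω i = β s ω)
    (he : ‖(EuclideanSpace.single i (1 : ℝ) : E d)‖ = 1) (n : ℕ) (s : ℝ≥0)
    (ω : Ω) : (approx hc (EuclideanSpace.single i (1 : ℝ)) he n).int B s ω =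
      J t (fun k => tru c n k ω) (fun r => β r ω) s := by
  rw [← J_finite n (fun j hj => tru_zero n j hj ω) s]
  unfold SimpleProc.int
  refine Finset.sum_congr rfl fun k _ => ?_
  show inner ℝ (tru c n k ω • (EuclideanSpace.single i (1 : ℝ) : E d))
    (B (min (t (k + 1)) s) ω - B (min (t k) s) ω) = _
  rw [inner_smul_left, EuclideanSpace.inner_single_left]
  simp [hB]

lemma ito_sol [IsProbabilityMeasure P] {d : ℕ} (hc : Coef F β t T c) (i : Fin d)
    (B : ℝ≥0 → Ω → E d) (hB : ∀ s ω, B s ω i = β s ω) (G : Ω → ℝ)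
    (hGm : AEStronglyMeasurable G P) (hG : ∀ᵐ ω ∂P, ∀ s ≤ T, |β s ω| ≤ G ω) :
    IsItoIntegral P F B T (solZ t c (EuclideanSpace.single i (1 : ℝ)))
      (fun s ω => J t (fun j => c j ω) (fun r => β r ω) s) := by
  have he : ‖(EuclideanSpace.single i (1 : ℝ) : E d)‖ = 1 := by simp
  refine ⟨approx hc (EuclideanSpace.single i (1 : ℝ)) he, ?_, ?_⟩
  · intro ε hε
    obtain ⟨δ, hδ, hδ2⟩ : ∃ δ : ℝ, 0 < δ ∧ ∀ x : ℝ, 0 ≤ x → x < δ →
        ENNReal.ofReal x ^ 2 * ENNReal.ofReal (T : ℝ) < ε := by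
      obtain ⟨ε0, hε0, hε1⟩ : ∃ ε0 : ℝ≥0, 0 < ε0 ∧ (ε0 : ℝ≥0∞) < ε := by
        obtain ⟨r, hr0, hr1⟩ := ENNReal.lt_iff_exists_nnreal_btwn.1 hε
        exact ⟨r, by exact_mod_cast hr0, hr1⟩
      refine ⟨√(ε0 / (T + 1)), by positivity, fun x hx hx2 => ?_⟩
      refine lt_of_le_of_lt ?_ hε1
      rw [← ENNReal.ofReal_pow hx, ← ENNReal.ofReal_mul (by positivity), ← ENNReal.ofReal_coe_nnreal]
      refine ENNReal.ofReal_le_ofReal ?_
      have h1 : x ^ 2 < ε0 / (T + 1) := (Real.lt_sqrt hx).1 hx2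
      have hT : (0 : ℝ) ≤ T := T.coe_nonneg
      have h2 : (0 : ℝ) < (T : ℝ) + 1 := by linarith
      rw [lt_div_iff₀ h2] at h1
      nlinarith [sq_nonneg x]
    refine conv0 (f := fun n ω => err c n ω) (fun n => (err_meas hc n).aestronglyMeasurable)
      (Filter.Eventually.of_forall fun ω => err_tendsto hc ω) hδ fun n => ?_
    refine Filter.Eventually.of_forall fun ω hω => ?_
    by_contra hlt
    push Not at hlt
    have h1 := hδ2 _ (err_nonneg n ω) hlt
    have h2 : ε ≤ ∫⁻ s in Set.Icc (0 : ℝ) T,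
        ‖(approx hc (EuclideanSpace.single i (1 : ℝ)) he n).val s.toNNReal ω -
          solZ t c (EuclideanSpace.single i (1 : ℝ)) s.toNNReal ω‖ₑ ^ 2 := by simpa using hω
    refine absurd (h2.trans ?_) (not_le.2 h1)
    calc _ ≤ ∫⁻ s in Set.Icc (0 : ℝ) T, ENNReal.ofReal (err c n ω) ^ 2 := by
          refine lintegral_mono fun s => ?_
          gcongr
          rw [approx_val, solZ, ← sub_smul, enorm_smul, pc_sub hc.mono]
          have he' : ‖(EuclideanSpace.single i (1 : ℝ) : E d)‖ₑ = 1 := by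
            rw [← ofReal_norm, he, ENNReal.ofReal_one]
          rw [he', mul_one, ← ofReal_norm, Real.norm_eq_abs]
          refine ENNReal.ofReal_le_ofReal ?_
          have h3 : (fun j => tru c n j ω - c j ω) = fun j => -(rem c n j ω) := by
            funext j; rw [← c_sub_tru]; ring
          rw [h3]
          have h4 := abs_pc_le hc.mono (c := fun j => -(rem c n j ω))
            (by simpa using rem_summ hc n ω) s.toNNReal
          simpa [err] using h4
      _ = _ := by
          rw [setLIntegral_const, Real.volume_Icc, sub_zero]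
  · intro ε hε
    refine conv0 (f := fun n ω => 2 * G ω * err c n ω) (fun n => ?_) ?_ hε fun n => ?_
    · exact ((hGm.const_mul 2).mul (err_meas hc n).aestronglyMeasurable)
    · refine Filter.Eventually.of_forall fun ω => ?_
      have := (err_tendsto hc ω).const_mul (2 * G ω)
      rwa [mul_zero] at this
    · filter_upwards [hG] with ω hω hmem
      obtain ⟨s, hs, hs2⟩ : ∃ s : ℝ≥0, s ≤ T ∧
        ε ≤ |(approx hc (EuclideanSpace.single i (1 : ℝ)) he n).int B s ω -
          J t (fun j => c j ω) (fun r => β r ω) s| := by simpa using hmem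
      refine hs2.trans ?_
      rw [approx_int hc i B hB, J_sub hω hc.le (tru_summ hc n ω) (hc.summ ω)]
      have h3 : (fun j => tru c n j ω - c j ω) = fun j => -(rem c n j ω) := by
        funext j; rw [← c_sub_tru]; ring
      rw [h3]
      have h4 := J_bound hω hc.le (c := fun j => -(rem c n j ω))
        (by simpa using rem_summ hc n ω) s
      simpa [err] using h4

lemma solZ_sq {d : ℕ} (hc : Coef F β t T c) (e : E d) (he : ‖e‖ = 1) (ω : Ω) :
    ∫⁻ s in Set.Icc (0 : ℝ) T, ‖solZ t c e s.toNNReal ω‖ₑ ^ 2 < ∞ := by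
  calc _ ≤ ∫⁻ s in Set.Icc (0 : ℝ) T, ENNReal.ofReal (∑' j, |c j ω|) ^ 2 := by
          refine lintegral_mono fun s => ?_
          gcongr
          rw [solZ, enorm_smul]
          have he' : ‖e‖ₑ = 1 := by
            rw [← ofReal_norm, he, ENNReal.ofReal_one]
          rw [he', mul_one, ← ofReal_norm, Real.norm_eq_abs]
          exact ENNReal.ofReal_le_ofReal (abs_pc_le hc.mono (hc.summ ω) _)
    _ < ∞ := by
          rw [setLIntegral_const, Real.volume_Icc]
          exact ENNReal.mul_lt_top (ENNReal.pow_lt_top ENNReal.ofReal_lt_top)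
            ENNReal.ofReal_lt_top

lemma gen_solZ {d : ℕ} (hc : Coef F β t T c) (e : E d) (he : ‖e‖ = 1) (s : ℝ≥0) (ω : Ω) :
    gen (solZ t c e s ω) = pc t (fun j => g1 (c j ω)) s := by
  rw [← pc_comp hc.mono g1 g1_zero, gen, solZ, norm_smul, he, mul_one, Real.norm_eq_abs, g1_abs]

lemma isSol [IsProbabilityMeasure P] {d : ℕ} (hc : Coef F β t T c) (i : Fin d)
    (B : ℝ≥0 → Ω → E d) (hB : ∀ s ω, B s ω i = β s ω) (G : Ω → ℝ)
    (hGm : AEStronglyMeasurable G P) (hG : ∀ᵐ ω ∂P, ∀ s ≤ T, |β s ω| ≤ G ω) (y0 : ℝ) :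
    IsSolution P F B T (solY t c β y0 T) (solY t c β y0)
      (solZ t c (EuclideanSpace.single i (1 : ℝ))) where
  progY := solY_prog hc y0
  progZ := solZ_prog hc _
  cont := solY_cont hc y0
  sq := Filter.Eventually.of_forall fun ω => solZ_sq hc _ (by simp) ω
  eqn := by
    refine ⟨_, ito_sol hc i B hB G hGm hG, Filter.Eventually.of_forall fun ω s hs => ?_⟩
    have hc1 := hc.comp measurable_g1 abs_g1_le
    have h1 : ∀ x y : ℝ, ∫ r in x..y, gen (solZ t c (EuclideanSpace.single i (1 : ℝ) : E d)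
        r.toNNReal ω) = ∫ r in x..y, pc t (fun j => g1 (c j ω)) r.toNNReal := by
      intro x y
      refine intervalIntegral.integral_congr fun r _ => ?_
      exact gen_solZ hc _ (by simp) _ ω
    rw [h1]
    have h2 : ∫ r in (s : ℝ)..T, pc t (fun j => g1 (c j ω)) r.toNNReal =
        (∫ r in (0 : ℝ)..T, pc t (fun j => g1 (c j ω)) r.toNNReal) -
          ∫ r in (0 : ℝ)..s, pc t (fun j => g1 (c j ω)) r.toNNReal := by
      rw [intervalIntegral.integral_interval_sub_left]
      · exact pc_intervalIntegrable hc.mono (hc1.summ ω) _ _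
      · exact pc_intervalIntegrable hc.mono (hc1.summ ω) _ _
    rw [h2, int_pc hc.mono hc.le (hc1.summ ω), int_pc hc.mono hc.le (hc1.summ ω)]
    simp only [solY]
    ring

end

end Pool.Agent.R228.BS
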