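import Pool.Agent.R228.BS.Kern

/-!
# MP_3fc9e2_pr: the Markov chain and its moments
-/

open MeasureTheory ProbabilityTheory Filter Topology
open scoped NNReal ENNReal

namespace Pool.Agent.R228.BS

lemma measurable_stp (v : ℝ) : Measurable (fun p : ℝ × ℝ => stp v p.1 p.2) := by
  unfold stp
  refine Measurable.ite ?_ ?_ ?_
  · exact measurableSet_lt (by fun_prop) (by fun_prop)
  · fun_prop
  · have h1 : Measurable (fun p : ℝ × ℝ => ((⌊p.1 / (4 * Real.pi * v)⌋ : ℤ) : ℝ)) := by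
      have h2 : Measurable (fun p : ℝ × ℝ => ⌊p.1 / (4 * Real.pi * v)⌋) :=
        Int.measurable_floor.comp (by fun_prop)
      exact (measurable_from_top (f := fun n : ℤ => (n : ℝ))).comp h2
    fun_prop

/-- The chain driven by the increments of `β` along the times `t j`. -/
noncomputable def chn {Ω : Type*} (β : ℝ≥0 → Ω → ℝ) (t : ℕ → ℝ≥0) : ℕ → Ω → ℝ
  | 0, _ => 1
  | (j + 1), ω => stp ((t (j + 1) - t j : ℝ≥0) : ℝ) (chn β t j ω) (β (t (j + 1)) ω - β (t j) ω)

section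
variable {Ω : Type*} {β : ℝ≥0 → Ω → ℝ} {t : ℕ → ℝ≥0}

lemma chn_meas (m : ℝ≥0 → MeasurableSpace Ω) (hm : Monotone m) (hβ : ∀ s, Measurable[m s] (β s))
    (ht : Monotone t) (j : ℕ) : Measurable[m (t j)] (chn β t j) := by
  induction j with
  | zero => exact @measurable_const _ _ _ (m (t 0)) _
  | succ j ih =>
    have hle : t j ≤ t (j + 1) := ht (Nat.le_succ j)
    have h1 : Measurable[m (t (j + 1))] (chn β t j) := ih.mono (hm hle) le_rfl
    have h2 : Measurable[m (t (j + 1))] (β (t (j + 1))) := hβ _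
    have h3 : Measurable[m (t (j + 1))] (β (t j)) := (hβ _).mono (hm hle) le_rfl
    exact (measurable_stp _).comp (h1.prodMk (h2.sub h3))

variable [mΩ : MeasurableSpace Ω] {P : Measure Ω}

lemma indep_chn (hβ : IsPreBrownianReal β P) (ht : Monotone t) (j : ℕ) :
    IndepFun (chn β t j) (fun ω => β (t (j + 1)) ω - β (t j) ω) P := by
  have h0 := hβ.indepFun_shift (t j)
  set m : ℝ≥0 → MeasurableSpace Ω := fun s =>
    MeasurableSpace.comap (fun ω (r : Set.Iic s) => β r ω) inferInstance with hmdef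
  have hmono : Monotone m := by
    intro s s' hss
    have : (fun ω (r : Set.Iic s) => β r ω) =
      (fun (f : Set.Iic s' → ℝ) (r : Set.Iic s) => f ⟨r, r.2.trans hss⟩) ∘
        (fun ω (r : Set.Iic s') => β r ω) := rfl
    simp only [hmdef]
    rw [this, ← MeasurableSpace.comap_comp]
    refine MeasurableSpace.comap_mono ?_
    refine Measurable.comap_le ?_
    fun_prop
  have hb : ∀ s, Measurable[m s] (β s) := by
    intro s
    have : β s = (fun f : Set.Iic s → ℝ => f ⟨s, Set.mem_Iic.2 le_rfl⟩) ∘ (fun ω (r : Set.Iic s) => β r ω) := rfl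
    rw [this]
    exact (measurable_pi_apply _).comp (comap_measurable _)
  have hc : Measurable[m (t j)] (chn β t j) := chn_meas m hmono hb ht j
  have hle : t j ≤ t (j + 1) := ht (Nat.le_succ j)
  have h1 : IndepFun (fun ω => β (t (j + 1)) ω - β (t j) ω)
      (fun ω (r : Set.Iic (t j)) => β r ω) P := by
    have := h0.comp (φ := fun f : ℝ≥0 → ℝ => f (t (j + 1) - t j)) (ψ := id)
      (measurable_pi_apply (X := fun _ : ℝ≥0 => ℝ) (t (j + 1) - t j)) measurable_id
    have e : (fun f : ℝ≥0 → ℝ => f (t (j + 1) - t j)) ∘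
        (fun ω r => β (t j + r) ω - β (t j) ω) = fun ω => β (t (j + 1)) ω - β (t j) ω := by
      funext ω
      simp [Function.comp_apply, add_tsub_cancel_of_le hle]
    rw [e] at this
    exact this
  have h2 := (IndepFun_iff_Indep _ _ _).1 h1
  have h3 := indep_of_indep_of_le_right h2 hc.comap_le
  exact ((IndepFun_iff_Indep _ _ _).2 h3).symm

lemma lint_step {X b : Ω → ℝ} [IsProbabilityMeasure P] (hX : Measurable X) (hb : Measurable b)
    (hind : IndepFun X b P) {f : ℝ × ℝ → ℝ≥0∞} (hf : Measurable f) :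
    ∫⁻ ω, f (X ω, b ω) ∂P = ∫⁻ ω, ∫⁻ y, f (X ω, y) ∂(P.map b) ∂P := by
  have h := (indepFun_iff_map_prod_eq_prod_map_map hX.aemeasurable hb.aemeasurable).1 hind
  have : IsProbabilityMeasure (P.map b) := Measure.isProbabilityMeasure_map hb.aemeasurable
  calc ∫⁻ ω, f (X ω, b ω) ∂P = ∫⁻ p, f p ∂(P.map fun ω => (X ω, b ω)) := by
        rw [lintegral_map hf (hX.prodMk hb)]
    _ = ∫⁻ x, ∫⁻ y, f (x, y) ∂(P.map b) ∂(P.map X) := by
        rw [h, lintegral_prod _ hf.aemeasurable]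
    _ = _ := by
        rw [lintegral_map (Measurable.lintegral_prod_right' hf) hX]

lemma law_incr (hβ : IsPreBrownianReal β P) (ht : Monotone t) (j : ℕ) :
    P.map (fun ω => β (t (j + 1)) ω - β (t j) ω) = gaussianReal 0 (t (j + 1) - t j) := by
  have h := (hβ.hasLaw_sub (t (j + 1)) (t j)).map_eq
  have h2 : nndist (t (j + 1)).1 (t j).1 = t (j + 1) - t j := by
    have hle : t j ≤ t (j + 1) := ht (Nat.le_succ j)
    rw [← NNReal.coe_inj, coe_nndist, NNReal.coe_sub hle, Real.dist_eq]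
    exact abs_of_nonneg (sub_nonneg.2 hle)
  rw [h2] at h
  exact h

lemma chn_meas' (hm : ∀ s, Measurable (β s)) (ht : Monotone t) (j : ℕ) :
    Measurable (chn β t j) :=
  chn_meas (fun _ => mΩ) (fun _ _ _ => le_rfl) hm ht j

lemma sqrt_mom [IsProbabilityMeasure P] (hβ : IsPreBrownianReal β P) (hm : ∀ s, Measurable (β s))
    (ht : Monotone t) (hpos : ∀ j, 0 < t (j + 1) - t j) (hsm : ∀ j, t (j + 1) - t j ≤ 1 / 200)
    (j : ℕ) : ∫⁻ ω, ENNReal.ofReal (√|chn β t j ω|) ∂P ≤ ENNReal.ofReal ((996 / 1000) ^ j) := by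
  have hcm : ∀ j, Measurable (chn β t j) := fun j =>
    chn_meas (fun _ => mΩ) (fun _ _ _ => le_rfl) hm ht j
  induction j with
  | zero => simp [chn]
  | succ j ih =>
    have h1 : ∫⁻ ω, ENNReal.ofReal (√|chn β t (j + 1) ω|) ∂P =
        ∫⁻ ω, ∫⁻ y, ENNReal.ofReal (√|stp ((t (j + 1) - t j : ℝ≥0) : ℝ) (chn β t j ω) y|)
          ∂(gaussianReal 0 (t (j + 1) - t j)) ∂P := by
      rw [← law_incr hβ ht j]
      exact lint_step (f := fun p => ENNReal.ofReal (√|stp ((t (j + 1) - t j : ℝ≥0) : ℝ) p.1 p.2|))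
        (hcm j) ((hm _).sub (hm _)) (indep_chn hβ ht j)
        (by have := measurable_stp ((t (j + 1) - t j : ℝ≥0) : ℝ); fun_prop)
    rw [h1]
    calc _ ≤ ∫⁻ ω, ENNReal.ofReal (996 / 1000 * √|chn β t j ω|) ∂P :=
          lintegral_mono fun ω => stmB1 _ (hpos j) (hsm j) _
      _ = ENNReal.ofReal (996 / 1000) * ∫⁻ ω, ENNReal.ofReal (√|chn β t j ω|) ∂P := by
          rw [← lintegral_const_mul _ (by have := hcm j; fun_prop)]
          refine lintegral_congr fun ω => ?_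
          rw [ENNReal.ofReal_mul (by norm_num)]
      _ ≤ ENNReal.ofReal (996 / 1000) * ENNReal.ofReal ((996 / 1000) ^ j) := by gcongr
      _ = _ := by rw [← ENNReal.ofReal_mul (by norm_num), pow_succ, mul_comm]

lemma pow_mom [IsProbabilityMeasure P] (hβ : IsPreBrownianReal β P) (hm : ∀ s, Measurable (β s))
    (ht : Monotone t) (hpos : ∀ j, 0 < t (j + 1) - t j) (hsm : ∀ j, t (j + 1) - t j ≤ 1 / 200)
    (q : ℕ) (hq : 1 ≤ q) : ∃ C : ℝ, 0 ≤ C ∧ ∀ j,
      ∫⁻ ω, ENNReal.ofReal (|chn β t j ω| ^ q) ∂P ≤ ENNReal.ofReal (C * (996 / 1000) ^ j) := by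
  have hcm : ∀ j, Measurable (chn β t j) := fun j =>
    chn_meas (fun _ => mΩ) (fun _ _ _ => le_rfl) hm ht j
  obtain ⟨C, hC, h⟩ := stmB2 q hq
  refine ⟨1 + C * (1000 / 996), by positivity, fun j => ?_⟩
  cases j with
  | zero =>
    simp only [chn, abs_one, one_pow, ENNReal.ofReal_one, lintegral_const, measure_univ, mul_one,
      pow_zero]
    rw [ENNReal.one_le_ofReal]
    nlinarith
  | succ j =>
    have h1 : ∫⁻ ω, ENNReal.ofReal (|chn β t (j + 1) ω| ^ q) ∂P =
        ∫⁻ ω, ∫⁻ y, ENNReal.ofReal (|stp ((t (j + 1) - t j : ℝ≥0) : ℝ) (chn β t j ω) y| ^ q)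
          ∂(gaussianReal 0 (t (j + 1) - t j)) ∂P := by
      rw [← law_incr hβ ht j]
      exact lint_step
        (f := fun p => ENNReal.ofReal (|stp ((t (j + 1) - t j : ℝ≥0) : ℝ) p.1 p.2| ^ q))
        (hcm j) ((hm _).sub (hm _)) (indep_chn hβ ht j)
        (by have := measurable_stp ((t (j + 1) - t j : ℝ≥0) : ℝ); fun_prop)
    rw [h1]
    calc _ ≤ ∫⁻ ω, ENNReal.ofReal (C * √|chn β t j ω|) ∂P :=
          lintegral_mono fun ω => h _ (hpos j) (hsm j) _
      _ = ENNReal.ofReal C * ∫⁻ ω, ENNReal.ofReal (√|chn β t j ω|) ∂P := by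
          rw [← lintegral_const_mul _ (by have := hcm j; fun_prop)]
          refine lintegral_congr fun ω => ?_
          rw [ENNReal.ofReal_mul hC]
      _ ≤ ENNReal.ofReal C * ENNReal.ofReal ((996 / 1000) ^ j) := by
          gcongr; exact sqrt_mom hβ hm ht hpos hsm j
      _ ≤ _ := by
          rw [← ENNReal.ofReal_mul hC]
          refine ENNReal.ofReal_le_ofReal ?_
          rw [pow_succ]
          have h3 : (0 : ℝ) ≤ (996 / 1000) ^ j := by positivity
          nlinarith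

/-- The sum of the `|X_j| w_j`. -/
noncomputable def bigS (β : ℝ≥0 → Ω → ℝ) (t : ℕ → ℝ≥0) (w : ℕ → ℝ) (ω : Ω) : ℝ≥0∞ :=
  ∑' j, ENNReal.ofReal (|chn β t j ω| * w j)

lemma bigS_meas (hm : ∀ s, Measurable (β s)) (ht : Monotone t) (w : ℕ → ℝ) :
    Measurable (bigS β t w) := by
  unfold bigS
  refine Measurable.ennreal_tsum fun j => ?_
  have := chn_meas' hm ht j
  fun_prop

lemma bigS_mom [IsProbabilityMeasure P] (hβ : IsPreBrownianReal β P) (hm : ∀ s, Measurable (β s))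
    (ht : Monotone t) (hpos : ∀ j, 0 < t (j + 1) - t j) (hsm : ∀ j, t (j + 1) - t j ≤ 1 / 200)
    (w : ℕ → ℝ) (K : ℝ) (hw : ∀ j, 0 ≤ w j) (hwK : ∀ j, w j ≤ K * ((j : ℝ) + 2) ^ 2)
    (q : ℕ) (hq : 1 ≤ q) :
    ∫⁻ ω, (bigS β t w ω) ^ q ∂P < ∞ := by
  obtain ⟨C, hC, hmom⟩ := pow_mom hβ hm ht hpos hsm q hq
  have hq0 : q ≠ 0 := by omega
  have hK : 0 ≤ K := by
    have := (hw 0).trans (hwK 0)
    norm_num at this
    linarith
  -- the ratio
  obtain ⟨r, hr0, hr1, hrq⟩ : ∃ r : ℝ, 0 < r ∧ r < 1 ∧ r ^ q = 997 / 1000 := by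
    refine ⟨(997 / 1000 : ℝ) ^ ((q : ℝ)⁻¹), by positivity, ?_, ?_⟩
    · exact Real.rpow_lt_one (by norm_num) (by norm_num) (by positivity)
    · rw [← Real.rpow_natCast, ← Real.rpow_mul (by norm_num)]
      rw [inv_mul_cancel₀ (by exact_mod_cast hq0), Real.rpow_one]
  set ρ : ℝ≥0∞ := ENNReal.ofReal r with hρ
  set c : ℕ → Ω → ℝ≥0∞ := fun j ω => ENNReal.ofReal ((|chn β t j ω| * w j) / r ^ j) with hc
  set U : Ω → ℝ≥0∞ := fun ω => ∑' j, (c j ω) ^ q with hU
  have hcm : ∀ j, Measurable (c j) := by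
    intro j
    have := chn_meas' hm ht j
    simp only [hc]
    fun_prop
  have hUm : Measurable U := Measurable.ennreal_tsum fun j => (hcm j).pow_const q
  have hUint : ∫⁻ ω, U ω ∂P < ∞ := by
    simp only [hU]
    rw [lintegral_tsum fun j => ((hcm j).pow_const q).aemeasurable]
    have hb : ∀ j, ∫⁻ ω, (c j ω) ^ q ∂P ≤
        ENNReal.ofReal (K ^ q * C * (((j : ℝ) + 2) ^ (2 * q) * (996 / 997) ^ j)) := by
      intro j
      have h1 : ∀ ω, (c j ω) ^ q =
          ENNReal.ofReal (w j ^ q / (997 / 1000) ^ j) * ENNReal.ofReal (|chn β t j ω| ^ q) := by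
        intro ω
        have hwj := hw j
        simp only [hc]
        rw [← ENNReal.ofReal_pow (by positivity), ← ENNReal.ofReal_mul (by positivity)]
        congr 1
        rw [div_pow, mul_pow, ← pow_mul, mul_comm j q, pow_mul, hrq]
        ring
      simp_rw [h1]
      rw [lintegral_const_mul _ (by have := chn_meas' hm ht j; fun_prop)]
      have hwj := hw j
      calc _ ≤ ENNReal.ofReal (w j ^ q / (997 / 1000) ^ j) *
            ENNReal.ofReal (C * (996 / 1000) ^ j) := by gcongr; exact hmom j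
        _ = ENNReal.ofReal (w j ^ q / (997 / 1000) ^ j * (C * (996 / 1000) ^ j)) := by
            rw [← ENNReal.ofReal_mul (by positivity)]
        _ ≤ _ := by
            refine ENNReal.ofReal_le_ofReal ?_
            have h2 : w j ^ q ≤ (K * ((j : ℝ) + 2) ^ 2) ^ q := by
              exact pow_le_pow_left₀ hwj (hwK j) q
            have h3 : (996 / 997 : ℝ) ^ j = (996 / 1000) ^ j / (997 / 1000) ^ j := by
              rw [← div_pow]; norm_num
            rw [h3]
            rw [mul_pow, ← pow_mul] at h2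
            have h4 : (0 : ℝ) ≤ C * (996 / 1000) ^ j / (997 / 1000) ^ j := by positivity
            calc w j ^ q / (997 / 1000) ^ j * (C * (996 / 1000) ^ j)
                = w j ^ q * (C * (996 / 1000) ^ j / (997 / 1000) ^ j) := by ring
              _ ≤ (K ^ q * ((j : ℝ) + 2) ^ (2 * q)) *
                  (C * (996 / 1000) ^ j / (997 / 1000) ^ j) := by gcongr
              _ = _ := by ring
    have hsum : Summable fun j : ℕ =>
        K ^ q * C * (((j : ℝ) + 2) ^ (2 * q) * (996 / 997 : ℝ) ^ j) := by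
      refine Summable.mul_left _ ?_
      have h5 : Summable fun j : ℕ => ((j : ℝ)) ^ (2 * q) * (996 / 997 : ℝ) ^ j :=
        summable_pow_mul_geometric_of_norm_lt_one (2 * q) (by norm_num [abs_of_pos])
      have h6 := (summable_nat_add_iff 2).2 h5
      have h7 := h6.mul_left ((996 / 997 : ℝ) ^ 2)⁻¹
      refine h7.congr fun j => ?_
      push_cast
      rw [pow_add]
      field_simp
    calc ∑' j, ∫⁻ ω, (c j ω) ^ q ∂P
        ≤ ∑' j : ℕ, ENNReal.ofReal (K ^ q * C * (((j : ℝ) + 2) ^ (2 * q) * (996 / 997) ^ j)) :=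
          ENNReal.tsum_le_tsum hb
      _ = ENNReal.ofReal (∑' j : ℕ, K ^ q * C * (((j : ℝ) + 2) ^ (2 * q) * (996 / 997) ^ j)) :=
          (ENNReal.ofReal_tsum_of_nonneg (fun j => by positivity) hsum).symm
      _ < ∞ := ENNReal.ofReal_lt_top
  have hgeo : (∑' j : ℕ, ρ ^ j) = (1 - ρ)⁻¹ := ENNReal.tsum_geometric ρ
  have hρ1 : ρ < 1 := by
    rw [hρ, ← ENNReal.ofReal_one]
    exact (ENNReal.ofReal_lt_ofReal_iff (by norm_num)).2 hr1
  have hfin : (1 - ρ)⁻¹ ≠ ∞ := by
    rw [ENNReal.inv_ne_top]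
    exact (tsub_pos_of_lt hρ1).ne'
  have hle : ∀ ω, (bigS β t w ω) ^ q ≤ ((1 - ρ)⁻¹) ^ q * U ω := by
    intro ω
    have h1 : ∀ j, c j ω ≤ (U ω) ^ ((q : ℝ)⁻¹) := by
      intro j
      have h2 : (c j ω) ^ q ≤ U ω := ENNReal.le_tsum (f := fun j => (c j ω) ^ q) j
      calc c j ω = ((c j ω) ^ (q : ℝ)) ^ ((q : ℝ)⁻¹) := by
            rw [← ENNReal.rpow_mul, mul_inv_cancel₀ (by exact_mod_cast hq0), ENNReal.rpow_one]
        _ ≤ _ := by
            rw [ENNReal.rpow_natCast]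
            exact ENNReal.rpow_le_rpow h2 (by positivity)
    have h3 : bigS β t w ω ≤ (1 - ρ)⁻¹ * (U ω) ^ ((q : ℝ)⁻¹) := by
      unfold bigS
      rw [← hgeo, ← ENNReal.tsum_mul_right]
      refine ENNReal.tsum_le_tsum fun j => ?_
      have h4 : ENNReal.ofReal (|chn β t j ω| * w j) = ρ ^ j * c j ω := by
        simp only [hρ, hc]
        rw [← ENNReal.ofReal_pow hr0.le, ← ENNReal.ofReal_mul (by positivity)]
        congr 1
        field_simp
      rw [h4]
      gcongr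
      exact h1 j
    calc (bigS β t w ω) ^ q ≤ ((1 - ρ)⁻¹ * (U ω) ^ ((q : ℝ)⁻¹)) ^ q := by gcongr
      _ = ((1 - ρ)⁻¹) ^ q * U ω := by
          rw [mul_pow]
          congr 1
          rw [← ENNReal.rpow_natCast, ← ENNReal.rpow_mul,
            inv_mul_cancel₀ (by exact_mod_cast hq0), ENNReal.rpow_one]
  calc ∫⁻ ω, (bigS β t w ω) ^ q ∂P ≤ ∫⁻ ω, ((1 - ρ)⁻¹) ^ q * U ω ∂P := lintegral_mono hle
    _ = ((1 - ρ)⁻¹) ^ q * ∫⁻ ω, U ω ∂P := lintegral_const_mul _ hUm
    _ < ∞ := ENNReal.mul_lt_top (ENNReal.pow_lt_top hfin.lt_top) hUint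

end

end Pool.Agent.R228.BS
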