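import Mathlib

/-!
# MP_3fc9e2_pr, piece A: moments of the running maximum of a real Brownian motion

Dyadic chaining: `|B t| ≤ |B 0| + ∑ n, max_k D n k`, and `D n k ≤ r ^ n * Z ^ (1 / q)` with
`Z = ∑ n, r ^ (- n q) ∑ k, D n k ^ q` integrable.
-/

open MeasureTheory ProbabilityTheory Filter Topology
open scoped NNReal ENNReal

namespace Pool.Agent.R228.BS

/-- dyadic points of `[0, T]` -/
noncomputable def dyp (T : ℝ≥0) (n m : ℕ) : ℝ≥0 := T * m / 2 ^ n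

lemma dyp_two (T : ℝ≥0) (n j : ℕ) : dyp T (n + 1) (2 * j) = dyp T n j := by
  unfold dyp
  rw [pow_succ]
  push_cast
  field_simp

/-- sum of the `q`-th powers of the increments of level `n` -/
noncomputable def incr {Ω : Type*} (B : ℝ≥0 → Ω → ℝ) (T : ℝ≥0) (q n : ℕ) (ω : Ω) : ℝ≥0∞ :=
  ∑ k ∈ Finset.range (2 ^ n),
    ENNReal.ofReal (|B (dyp T n (k + 1)) ω - B (dyp T n k) ω| ^ q)

/-- the chaining variable -/
noncomputable def zet {Ω : Type*} (B : ℝ≥0 → Ω → ℝ) (T : ℝ≥0) (q : ℕ) (ω : Ω) : ℝ≥0∞ :=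
  ∑' n : ℕ, ENNReal.ofReal (((10 / 9 : ℝ) ^ n) ^ q) * incr B T q n ω

/-- absolute moments of the standard Gaussian law -/
noncomputable def mom (q : ℕ) : ℝ≥0∞ :=
  ∫⁻ y, ENNReal.ofReal (|y| ^ q) ∂(gaussianReal 0 1)

lemma mom_lt (q : ℕ) : mom q < ∞ := by
  have h : MemLp (id : ℝ → ℝ) ((q : ℝ≥0) : ℝ≥0∞) (gaussianReal 0 1) := memLp_id_gaussianReal _
  have h2 : Integrable (fun y : ℝ ↦ ‖(id y : ℝ)‖ ^ q) (gaussianReal 0 1) := by
    apply MemLp.integrable_norm_pow' 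
    exact_mod_cast h
  have h3 := h2.lintegral_lt_top
  simpa [mom, Real.norm_eq_abs] using h3

lemma lint_gauss (v : ℝ≥0) (q : ℕ) :
    ∫⁻ y, ENNReal.ofReal (|y| ^ q) ∂(gaussianReal 0 v) =
      ENNReal.ofReal (√(v : ℝ) ^ q) * mom q := by
  have h : gaussianReal 0 v = (gaussianReal 0 1).map (√(v : ℝ) * ·) := by
    rw [gaussianReal_map_const_mul]
    congr 1
    · simp
    · ext
      simp
  rw [h, lintegral_map (by fun_prop) (by fun_prop), mom,
    ← lintegral_const_mul _ (by fun_prop)]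
  refine lintegral_congr fun y ↦ ?_
  rw [← ENNReal.ofReal_mul (by positivity), abs_mul, mul_pow, abs_of_nonneg (Real.sqrt_nonneg _)]

lemma lint_incr_one {Ω : Type*} [MeasurableSpace Ω] {P : Measure Ω} {B : ℝ≥0 → Ω → ℝ}
    (hB : IsPreBrownianReal B P) (T : ℝ≥0) (q n k : ℕ) :
    ∫⁻ ω, ENNReal.ofReal (|B (dyp T n (k + 1)) ω - B (dyp T n k) ω| ^ q) ∂P =
      ENNReal.ofReal (√((T : ℝ) / 2 ^ n) ^ q) * mom q := by
  have h := hB.hasLaw_sub (dyp T n (k + 1)) (dyp T n k)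
  have h2 := h.lintegral_comp (f := fun y ↦ ENNReal.ofReal (|y| ^ q)) (by fun_prop)
  simp only [Pi.sub_apply] at h2
  rw [h2, lint_gauss]
  congr 4
  rw [coe_nndist, Real.dist_eq]
  have : (dyp T n (k + 1)).1 - (dyp T n k).1 = (T : ℝ) / 2 ^ n := by
    simp only [dyp, NNReal.val_eq_coe]
    push_cast
    ring
  rw [this]
  exact abs_of_nonneg (by positivity)

lemma lint_incr {Ω : Type*} [MeasurableSpace Ω] {P : Measure Ω} {B : ℝ≥0 → Ω → ℝ}
    (hB : IsPreBrownianReal B P) (T : ℝ≥0) (q n : ℕ) :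
    ∫⁻ ω, incr B T q n ω ∂P =
      2 ^ n * (ENNReal.ofReal (√((T : ℝ) / 2 ^ n) ^ q) * mom q) := by
  unfold incr
  rw [lintegral_finsetSum']
  · rw [Finset.sum_congr rfl (fun k _ ↦ lint_incr_one hB T q n k)]
    simp only [Finset.sum_const, Finset.card_range, nsmul_eq_mul]
    push_cast
    rfl
  · intro k _
    have h1 := hB.aemeasurable (dyp T n (k + 1))
    have h2 := hB.aemeasurable (dyp T n k)
    fun_prop

lemma aem_incr {Ω : Type*} [MeasurableSpace Ω] {P : Measure Ω} {B : ℝ≥0 → Ω → ℝ}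
    (hB : IsPreBrownianReal B P) (T : ℝ≥0) (q n : ℕ) : AEMeasurable (incr B T q n) P := by
  unfold incr
  refine Finset.aemeasurable_fun_sum _ fun k _ ↦ ?_
  have h1 := hB.aemeasurable (dyp T n (k + 1))
  have h2 := hB.aemeasurable (dyp T n k)
  fun_prop

lemma lint_zet {Ω : Type*} [MeasurableSpace Ω] {P : Measure Ω} {B : ℝ≥0 → Ω → ℝ}
    (hB : IsPreBrownianReal B P) (T : ℝ≥0) (q : ℕ) (hq : 4 ≤ q) :
    ∫⁻ ω, zet B T q ω ∂P < ∞ := by
  unfold zet
  rw [lintegral_tsum (fun n ↦ (aem_incr hB T q n).const_mul _)]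
  have key : ∀ n : ℕ, ∫⁻ ω, ENNReal.ofReal (((10 / 9 : ℝ) ^ n) ^ q) * incr B T q n ω ∂P ≤
      ENNReal.ofReal (√(T : ℝ) ^ q) * mom q * ENNReal.ofReal (9 / 10) ^ n := by
    intro n
    rw [lintegral_const_mul'' _ (aem_incr hB T q n), lint_incr hB]
    have h1 : ENNReal.ofReal (((10 / 9 : ℝ) ^ n) ^ q) *
        (2 ^ n * (ENNReal.ofReal (√((T : ℝ) / 2 ^ n) ^ q) * mom q)) =
        ENNReal.ofReal (((10 / 9 : ℝ) ^ n) ^ q * (2 ^ n * √((T : ℝ) / 2 ^ n) ^ q)) * mom q := by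
      rw [ENNReal.ofReal_mul (by positivity), ENNReal.ofReal_mul (by positivity),
        ENNReal.ofReal_pow (by norm_num : (0 : ℝ) ≤ 2)]
      simp only [ENNReal.ofReal_ofNat]
      ring
    rw [h1, mul_right_comm, ← ENNReal.ofReal_pow (by norm_num), ← ENNReal.ofReal_mul (by positivity)]
    refine mul_le_mul' (ENNReal.ofReal_le_ofReal ?_) le_rfl
    have h2 : √((T : ℝ) / 2 ^ n) = √(T : ℝ) * (√(1 / 2)) ^ n := by
      have h : (T : ℝ) / 2 ^ n = (√(T : ℝ) * (√(1 / 2)) ^ n) ^ 2 := by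
        rw [mul_pow, ← pow_mul, mul_comm n 2, pow_mul, Real.sq_sqrt (by positivity),
          Real.sq_sqrt (by norm_num), div_pow, one_pow]
        ring
      rw [h, Real.sqrt_sq (by positivity)]
    rw [h2, mul_pow (√(T : ℝ))]
    have h3 : ((10 / 9 : ℝ) ^ n) ^ q * (2 ^ n * (√(T : ℝ) ^ q * ((√(1 / 2)) ^ n) ^ q)) =
        √(T : ℝ) ^ q * (((10 / 9 : ℝ) * √(1 / 2)) ^ q * 2) ^ n := by
      rw [mul_pow _ (2 : ℝ) n, mul_pow (10 / 9 : ℝ) _ q, mul_pow _ _ n, ← pow_mul, ← pow_mul,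
        ← pow_mul, ← pow_mul, mul_comm n q]
      ring
    rw [h3]
    gcongr
    have h4 : √(1 / 2 : ℝ) ^ 2 = 1 / 2 := Real.sq_sqrt (by norm_num)
    have h5 : (10 / 9 : ℝ) * √(1 / 2) ≤ 1 := by
      nlinarith [Real.sqrt_nonneg (1 / 2 : ℝ)]
    calc ((10 / 9 : ℝ) * √(1 / 2)) ^ q * 2 ≤ ((10 / 9 : ℝ) * √(1 / 2)) ^ 4 * 2 := by
          gcongr ?_ * 2
          exact pow_le_pow_of_le_one (by positivity) h5 hq
      _ = (10 / 9 : ℝ) ^ 4 * (√(1 / 2) ^ 2) ^ 2 * 2 := by ring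
      _ ≤ 9 / 10 := by rw [h4]; norm_num
  refine lt_of_le_of_lt (ENNReal.tsum_le_tsum key) ?_
  rw [ENNReal.tsum_mul_left]
  refine ENNReal.mul_lt_top (ENNReal.mul_lt_top ENNReal.ofReal_lt_top (mom_lt q)) ?_
  rw [ENNReal.tsum_geometric]
  apply ENNReal.inv_lt_top.2
  rw [tsub_pos_iff_lt, ENNReal.ofReal_lt_one]
  norm_num

lemma aem_zet {Ω : Type*} [MeasurableSpace Ω] {P : Measure Ω} {B : ℝ≥0 → Ω → ℝ}
    (hB : IsPreBrownianReal B P) (T : ℝ≥0) (q : ℕ) : AEMeasurable (zet B T q) P := by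
  unfold zet
  exact AEMeasurable.tsum (fun n ↦ (aem_incr hB T q n).const_mul _)

/-- the bound for one increment -/
lemma incr_le {Ω : Type*} {B : ℝ≥0 → Ω → ℝ} (T : ℝ≥0) (q : ℕ) (hq : q ≠ 0) (ω : Ω)
    (hz : zet B T q ω ≠ ∞) (n k : ℕ) (hk : k < 2 ^ n) :
    |B (dyp T n (k + 1)) ω - B (dyp T n k) ω| ≤
      (9 / 10) ^ n * (zet B T q ω).toReal ^ ((q : ℝ)⁻¹) := by
  set D := |B (dyp T n (k + 1)) ω - B (dyp T n k) ω| with hD
  have hD0 : 0 ≤ D := abs_nonneg _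
  have h1 : ENNReal.ofReal (((10 / 9 : ℝ) ^ n) ^ q * D ^ q) ≤ zet B T q ω := by
    calc ENNReal.ofReal (((10 / 9 : ℝ) ^ n) ^ q * D ^ q)
        = ENNReal.ofReal (((10 / 9 : ℝ) ^ n) ^ q) * ENNReal.ofReal (D ^ q) :=
          ENNReal.ofReal_mul (by positivity)
      _ ≤ ENNReal.ofReal (((10 / 9 : ℝ) ^ n) ^ q) * incr B T q n ω := by
          gcongr
          exact Finset.single_le_sum (f := fun k ↦
            ENNReal.ofReal (|B (dyp T n (k + 1)) ω - B (dyp T n k) ω| ^ q))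
            (fun _ _ ↦ zero_le) (Finset.mem_range.2 hk)
      _ ≤ zet B T q ω := ENNReal.le_tsum (f := fun n : ℕ ↦
            ENNReal.ofReal (((10 / 9 : ℝ) ^ n) ^ q) * incr B T q n ω) n
  have h2 : ((10 / 9 : ℝ) ^ n) ^ q * D ^ q ≤ (zet B T q ω).toReal :=
    (ENNReal.ofReal_le_iff_le_toReal hz).1 h1
  have h3 : ((zet B T q ω).toReal ^ ((q : ℝ)⁻¹)) ^ q = (zet B T q ω).toReal :=
    Real.rpow_inv_natCast_pow ENNReal.toReal_nonneg hq
  have h4 : ((10 / 9 : ℝ) ^ n * D) ^ q ≤ ((zet B T q ω).toReal ^ ((q : ℝ)⁻¹)) ^ q := by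
    rw [h3, mul_pow]; exact h2
  have h5 : (10 / 9 : ℝ) ^ n * D ≤ (zet B T q ω).toReal ^ ((q : ℝ)⁻¹) :=
    le_of_pow_le_pow_left₀ hq (by positivity) h4
  calc D = (9 / 10) ^ n * ((10 / 9 : ℝ) ^ n * D) := by
        rw [← mul_assoc, ← mul_pow]; norm_num
    _ ≤ _ := by gcongr

/-- the bound at dyadic points -/
lemma chain {Ω : Type*} {B : ℝ≥0 → Ω → ℝ} (T : ℝ≥0) (z : ℝ) (ω : Ω)
    (h : ∀ n k : ℕ, k < 2 ^ n → |B (dyp T n (k + 1)) ω - B (dyp T n k) ω| ≤ (9 / 10) ^ n * z) :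
    ∀ N m : ℕ, m ≤ 2 ^ N →
      |B (dyp T N m) ω| ≤ |B 0 ω| + ∑ n ∈ Finset.range (N + 1), (9 / 10) ^ n * z := by
  have hz : 0 ≤ z := by
    have := (abs_nonneg _).trans (h 0 0 (by norm_num))
    simpa using this
  intro N
  induction N with
  | zero =>
    intro m hm
    interval_cases m
    · have : dyp T 0 0 = 0 := by simp [dyp]
      rw [this]
      simp [hz]
    · have h0 : dyp T 0 0 = 0 := by simp [dyp]
      have h1 := h 0 0 (by norm_num)
      rw [h0] at h1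
      simp only [zero_add, pow_zero, one_mul] at h1
      have h2 : |B (dyp T 0 1) ω| ≤ |B 0 ω| + |B (dyp T 0 1) ω - B 0 ω| := by
        have := abs_add_le (B 0 ω) (B (dyp T 0 1) ω - B 0 ω)
        simpa using this
      simp only [zero_add, Finset.range_one, Finset.sum_singleton, pow_zero, one_mul]
      linarith
  | succ N ih =>
    intro m hm
    rw [Finset.sum_range_succ]
    obtain ⟨j, rfl | rfl⟩ := Nat.even_or_odd' m
    · rw [dyp_two]
      have := ih j (by rw [pow_succ] at hm; omega)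
      have h2 : 0 ≤ (9 / 10 : ℝ) ^ (N + 1) * z := by positivity
      linarith
    · have hj : j ≤ 2 ^ N := by rw [pow_succ] at hm; omega
      have h1 := ih j hj
      have h2 := h (N + 1) (2 * j) (by omega)
      rw [dyp_two] at h2
      have h3 : |B (dyp T (N + 1) (2 * j + 1)) ω| ≤
          |B (dyp T N j) ω| + |B (dyp T (N + 1) (2 * j + 1)) ω - B (dyp T N j) ω| := by
        have := abs_add_le (B (dyp T N j) ω) (B (dyp T (N + 1) (2 * j + 1)) ω - B (dyp T N j) ω)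
        simpa using this
      linarith

lemma geom_le (z : ℝ) (hz : 0 ≤ z) (N : ℕ) :
    ∑ n ∈ Finset.range N, (9 / 10 : ℝ) ^ n * z ≤ 10 * z := by
  rw [← Finset.sum_mul]
  gcongr
  rw [geom_sum_eq (by norm_num)]
  have : (0 : ℝ) ≤ (9 / 10) ^ N := by positivity
  have h : ((9 / 10 : ℝ) ^ N - 1) / (9 / 10 - 1) = 10 * (1 - (9 / 10) ^ N) := by ring
  rw [h]
  linarith

/-- **Moments of the running maximum of a Brownian motion.** -/
theorem brownian_sup {Ω : Type*} [MeasurableSpace Ω] {P : Measure Ω} {B : ℝ≥0 → Ω → ℝ}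
    (hB : IsBrownianReal B P) (T : ℝ≥0) (q : ℕ) (hq : 4 ≤ q) :
    ∃ G : Ω → ℝ, MemLp G q P ∧ (∀ ω, 0 ≤ G ω) ∧ ∀ᵐ ω ∂P, ∀ t ≤ T, |B t ω| ≤ G ω := by
  have hpB := hB.toIsPreBrownianReal
  have hq0 : q ≠ 0 := by omega
  refine ⟨fun ω ↦ 10 * (zet B T q ω).toReal ^ ((q : ℝ)⁻¹), ?_, fun ω ↦ by positivity, ?_⟩
  · have hm : AEStronglyMeasurable (fun ω ↦ 10 * (zet B T q ω).toReal ^ ((q : ℝ)⁻¹)) P := by
      have := aem_zet hpB T q
      exact (((this.ennreal_toReal).pow_const _).const_mul _).aestronglyMeasurable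
    rw [← integrable_norm_rpow_iff hm (by exact_mod_cast hq0) (by simp)]
    have h1 : Integrable (fun ω ↦ (10 : ℝ) ^ q * (zet B T q ω).toReal) P :=
      (integrable_toReal_of_lintegral_ne_top (aem_zet hpB T q) (lint_zet hpB T q hq).ne).const_mul _
    refine h1.congr (Filter.Eventually.of_forall fun ω ↦ ?_)
    simp only [ENNReal.toReal_natCast, Real.rpow_natCast]
    rw [Real.norm_of_nonneg (by positivity), mul_pow,
      Real.rpow_inv_natCast_pow ENNReal.toReal_nonneg hq0]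
  · filter_upwards [hB.cont, hpB.eval_zero_ae_eq_zero,
      ae_lt_top' (aem_zet hpB T q) (lint_zet hpB T q hq).ne] with ω hc h0 hz t ht
    set z := (zet B T q ω).toReal ^ ((q : ℝ)⁻¹) with hzd
    have hz0 : 0 ≤ z := by positivity
    have key : ∀ N m : ℕ, m ≤ 2 ^ N → |B (dyp T N m) ω| ≤ 10 * z := by
      intro N m hm
      have := chain T z ω (fun n k hk ↦ incr_le T q hq0 ω hz.ne n k hk) N m hm
      rw [h0, abs_zero, zero_add] at this
      exact this.trans (geom_le z hz0 _)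
    rcases eq_or_ne T 0 with rfl | hT
    · have : t = 0 := le_antisymm ht zero_le
      rw [this, h0, abs_zero]
      positivity
    · have hTp : (0 : ℝ) < T := by positivity
      -- the dyadic approximations
      have hlim : Tendsto (fun N : ℕ ↦ dyp T N ⌊(t : ℝ) / T * 2 ^ N⌋₊) atTop (𝓝 t) := by
        rw [← NNReal.tendsto_coe]
        have e : ∀ N : ℕ, ((dyp T N ⌊(t : ℝ) / T * 2 ^ N⌋₊ : ℝ≥0) : ℝ) =
            T * (⌊(t : ℝ) / T * 2 ^ N⌋₊ / 2 ^ N) := by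
          intro N; simp [dyp]; ring
        simp only [e]
        have h1 : Tendsto (fun N : ℕ ↦ (⌊(t : ℝ) / T * 2 ^ N⌋₊ : ℝ) / 2 ^ N) atTop
            (𝓝 ((t : ℝ) / T)) := by
          have := tendsto_nat_floor_mul_div_atTop (R := ℝ) (a := (t : ℝ) / T) (by positivity)
          exact this.comp (tendsto_pow_atTop_atTop_of_one_lt (by norm_num : (1 : ℝ) < 2))
        have h2 := h1.const_mul (T : ℝ)
        rwa [mul_div_cancel₀ _ hTp.ne'] at h2
      have hlim2 : Tendsto (fun N : ℕ ↦ |B (dyp T N ⌊(t : ℝ) / T * 2 ^ N⌋₊) ω|) atTop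
          (𝓝 |B t ω|) := ((hc.tendsto t).comp hlim).abs
      refine le_of_tendsto hlim2 (Filter.Eventually.of_forall fun N ↦ key N _ ?_)
      apply Nat.floor_le_of_le
      push_cast
      have : (t : ℝ) / T ≤ 1 := by
        rw [div_le_one hTp]; exact_mod_cast ht
      calc (t : ℝ) / T * 2 ^ N ≤ 1 * 2 ^ N := by gcongr
        _ = _ := one_mul _

end Pool.Agent.R228.BS
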