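import Pool.Agent.R228.BS.Chain
import Pool.Agent.R228.BS.Sup
import Pool.Agent.R228.BS.Ito

/-!
# MP_3fc9e2_pr: the two coefficient processes
-/

open MeasureTheory ProbabilityTheory Filter Topology
open scoped NNReal ENNReal

namespace Pool.Agent.R228.BS

/-- the coefficient as a function of the state -/
noncomputable def zt (σ v x : ℝ) : ℝ :=
  if |x| < 1 then σ * (x / (8 * √v))
  else 2 * Real.pi * ⌊x / (4 * Real.pi * v)⌋ + σ * (Real.pi / 2)

lemma g1_neg (x : ℝ) : g1 (-x) = g1 x := by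
  unfold g1
  rw [Real.sin_neg]; ring

lemma stp_zt (v x y : ℝ) (hv : 0 < v) :
    stp v x y - x = -(g1 (zt 1 v x) - g1 (zt (-1) v x)) * v + (zt 1 v x - zt (-1) v x) * y := by
  have hs : √v ≠ 0 := (Real.sqrt_pos.2 hv).ne'
  unfold stp zt
  split_ifs with h
  · rw [neg_one_mul, g1_neg, one_mul, sub_self]
    field_simp
    ring
  · have h1 : g1 (2 * Real.pi * ⌊x / (4 * Real.pi * v)⌋ + 1 * (Real.pi / 2)) =
        2 * Real.pi * ⌊x / (4 * Real.pi * v)⌋ + Real.pi / 2 := by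
      unfold g1
      rw [one_mul, Real.sin_add_pi_div_two]
      rw [show 2 * Real.pi * ((⌊x / (4 * Real.pi * v)⌋ : ℤ) : ℝ) =
        ((⌊x / (4 * Real.pi * v)⌋ : ℤ) : ℝ) * (2 * Real.pi) by ring, Real.cos_int_mul_two_pi]
      ring
    have h2 : g1 (2 * Real.pi * ⌊x / (4 * Real.pi * v)⌋ + (-1) * (Real.pi / 2)) =
        -(2 * Real.pi * ⌊x / (4 * Real.pi * v)⌋ - Real.pi / 2) := by
      unfold g1
      rw [neg_one_mul, ← sub_eq_add_neg, Real.sin_sub_pi_div_two]
      rw [show 2 * Real.pi * ((⌊x / (4 * Real.pi * v)⌋ : ℤ) : ℝ) =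
        ((⌊x / (4 * Real.pi * v)⌋ : ℤ) : ℝ) * (2 * Real.pi) by ring, Real.cos_int_mul_two_pi]
      ring
    rw [h1, h2]
    ring

lemma abs_zt_le {σ v : ℝ} (x : ℝ) (hσ : |σ| ≤ 1) (hv : 0 < v) (hv2 : v ≤ 1 / 200) :
    |zt σ v x| ≤ |x| * (1 / v) := by
  have hs : 0 < √v := Real.sqrt_pos.2 hv
  have hss : √v * √v = v := Real.mul_self_sqrt hv.le
  have hs1 : √v ≤ 1 := by
    rw [Real.sqrt_le_one]
    linarith
  unfold zt
  split_ifs with h
  · rw [abs_mul, abs_div, abs_of_pos (by positivity : (0 : ℝ) < 8 * √v)]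
    have h1 : |x| / (8 * √v) ≤ |x| * (1 / v) := by
      rw [mul_one_div]
      refine div_le_div_of_nonneg_left (abs_nonneg _) hv ?_
      nlinarith
    calc |σ| * (|x| / (8 * √v)) ≤ 1 * (|x| / (8 * √v)) := by gcongr
      _ ≤ _ := by rw [one_mul]; exact h1
  · push Not at h
    have hpi := Real.pi_pos
    have hpi4 := Real.pi_le_four
    have ha : |((⌊x / (4 * Real.pi * v)⌋ : ℤ) : ℝ)| ≤ |x| / (4 * Real.pi * v) + 1 := by
      set a := x / (4 * Real.pi * v) with ha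
      have h1 := Int.floor_le a
      have h2 := Int.lt_floor_add_one a
      have h3 : |x| / (4 * Real.pi * v) = |a| := by
        rw [ha, abs_div, abs_of_pos (by positivity : (0 : ℝ) < 4 * Real.pi * v)]
      rw [h3]
      rw [abs_le]
      constructor
      · have := neg_abs_le a; linarith
      · have := le_abs_self a; linarith
    have h1 : |2 * Real.pi * ((⌊x / (4 * Real.pi * v)⌋ : ℤ) : ℝ) + σ * (Real.pi / 2)| ≤
        2 * Real.pi * (|x| / (4 * Real.pi * v) + 1) + 1 * (Real.pi / 2) := by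
      refine (abs_add_le _ _).trans ?_
      rw [abs_mul (2 * Real.pi), abs_mul σ, abs_of_pos (by positivity : (0 : ℝ) < 2 * Real.pi),
        abs_of_pos (by positivity : (0 : ℝ) < Real.pi / 2)]
      gcongr
    refine h1.trans ?_
    have h2 : 2 * Real.pi * (|x| / (4 * Real.pi * v) + 1) + 1 * (Real.pi / 2) =
        |x| * (1 / v) / 2 + 5 * Real.pi / 2 := by
      field_simp
      ring
    rw [h2]
    have h3 : 200 ≤ 1 / v := by
      rw [le_div_iff₀ hv]; linarith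
    have h4 : 200 ≤ |x| * (1 / v) := by nlinarith
    linarith

lemma measurable_zt (σ v : ℝ) : Measurable (zt σ v) := by
  unfold zt
  refine Measurable.ite ?_ ?_ ?_
  · exact measurableSet_lt (by fun_prop) (by fun_prop)
  · fun_prop
  · have h1 : Measurable (fun x : ℝ => ((⌊x / (4 * Real.pi * v)⌋ : ℤ) : ℝ)) := by
      have h2 : Measurable (fun x : ℝ => ⌊x / (4 * Real.pi * v)⌋) :=
        Int.measurable_floor.comp (by fun_prop)
      exact (measurable_from_top (f := fun n : ℤ => (n : ℝ))).comp h2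
    fun_prop

section
variable {Ω : Type*} [mΩ : MeasurableSpace Ω] {F : Filtration ℝ≥0 mΩ} {β : ℝ≥0 → Ω → ℝ}
  {t : ℕ → ℝ≥0} {T : ℝ≥0} {P : Measure Ω}

/-- the weights -/
noncomputable def wt (t : ℕ → ℝ≥0) (j : ℕ) : ℝ := 1 / ((t (j + 1) - t j : ℝ≥0) : ℝ)

/-- the good set -/
def Gd (β : ℝ≥0 → Ω → ℝ) (t : ℕ → ℝ≥0) : Set Ω :=
  {ω | Continuous (fun s => β s ω) ∧ bigS β t (wt t) ω < ∞}

/-- the coefficients -/
noncomputable def cf (β : ℝ≥0 → Ω → ℝ) (t : ℕ → ℝ≥0) (σ : ℝ) (j : ℕ) : Ω → ℝ :=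
  (Gd β t).indicator fun ω => zt σ ((t (j + 1) - t j : ℝ≥0) : ℝ) (chn β t j ω)

lemma summ_chn {ω : Ω} (h : ω ∈ Gd β t) :
    Summable (fun j => |chn β t j ω| * wt t j) ∧
      (bigS β t (wt t) ω).toReal = ∑' j, |chn β t j ω| * wt t j := by
  have hw : ∀ j, 0 ≤ wt t j := fun j => by
    unfold wt
    positivity
  have h0 : ∀ j, 0 ≤ |chn β t j ω| * wt t j := fun j => mul_nonneg (abs_nonneg _) (hw j)
  have h1 : bigS β t (wt t) ω ≠ ∞ := h.2.ne
  have h2 := ENNReal.summable_toReal h1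
  have h3 : Summable (fun j => |chn β t j ω| * wt t j) := by
    refine h2.congr fun j => ?_
    rw [ENNReal.toReal_ofReal (h0 j)]
  refine ⟨h3, ?_⟩
  unfold bigS
  rw [← ENNReal.ofReal_tsum_of_nonneg h0 h3, ENNReal.toReal_ofReal (tsum_nonneg h0)]

lemma abs_cf_le (hpos : ∀ j, 0 < t (j + 1) - t j) (hsm : ∀ j, t (j + 1) - t j ≤ 1 / 200)
    {σ : ℝ} (hσ : |σ| ≤ 1) {ω : Ω} (h : ω ∈ Gd β t) (j : ℕ) :
    |cf β t σ j ω| ≤ |chn β t j ω| * wt t j := by
  unfold cf wt
  rw [Set.indicator_of_mem h]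
  refine abs_zt_le _ hσ (by exact_mod_cast hpos j) ?_
  have : ((t (j + 1) - t j : ℝ≥0) : ℝ) ≤ ((1 / 200 : ℝ≥0) : ℝ) := by exact_mod_cast hsm j
  simpa using this

lemma cf_zero {σ : ℝ} {ω : Ω} (h : ω ∉ Gd β t) (j : ℕ) : cf β t σ j ω = 0 := by
  unfold cf
  rw [Set.indicator_of_notMem h]

lemma coef_cf (ht : Monotone t) (htT : ∀ j, t j ≤ T) (hpos : ∀ j, 0 < t (j + 1) - t j)
    (hsm : ∀ j, t (j + 1) - t j ≤ 1 / 200) (hβF : ∀ s, Measurable[F s] (β s))
    (hGd : ∀ s, MeasurableSet[F s] (Gd β t)) {σ : ℝ} (hσ : |σ| ≤ 1) :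
    Coef F β t T (cf β t σ) where
  mono := ht
  le := htT
  adap := hβF
  meas j := by
    have h1 := chn_meas (fun s => F s) (fun _ _ h => F.mono h) hβF ht j
    exact ((measurable_zt σ _).comp h1).indicator (hGd _)
  summ ω := by
    by_cases h : ω ∈ Gd β t
    · exact Summable.of_nonneg_of_le (fun _ => abs_nonneg _)
        (fun j => abs_cf_le hpos hsm hσ h j) (summ_chn h).1
    · simp only [cf_zero h, abs_zero]
      exact summable_zero
  good ω h j := cf_zero (fun h2 => h h2.1) j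

lemma tsum_cf_le (hpos : ∀ j, 0 < t (j + 1) - t j)
    (hsm : ∀ j, t (j + 1) - t j ≤ 1 / 200) {σ : ℝ} (hσ : |σ| ≤ 1) (ω : Ω) :
    ∑' j, |cf β t σ j ω| ≤ (bigS β t (wt t) ω).toReal := by
  by_cases h : ω ∈ Gd β t
  · rw [(summ_chn h).2]
    exact Summable.tsum_le_tsum (fun j => abs_cf_le hpos hsm hσ h j)
      (Summable.of_nonneg_of_le (fun _ => abs_nonneg _)
        (fun j => abs_cf_le hpos hsm hσ h j) (summ_chn h).1) (summ_chn h).1
  · simp only [cf_zero h, abs_zero, tsum_zero]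
    exact ENNReal.toReal_nonneg

lemma chn_tendsto (hpos : ∀ j, 0 < t (j + 1) - t j) (hsm : ∀ j, t (j + 1) - t j ≤ 1 / 200)
    {ω : Ω} (h : ω ∈ Gd β t) : Tendsto (fun j => chn β t j ω) atTop (𝓝 0) := by
  have h1 := (summ_chn h).1.tendsto_atTop_zero
  refine squeeze_zero_norm (fun j => ?_) h1
  rw [Real.norm_eq_abs]
  have h2 : (1 : ℝ) ≤ wt t j := by
    unfold wt
    have h3 : (0 : ℝ) < ((t (j + 1) - t j : ℝ≥0) : ℝ) := by exact_mod_cast hpos j
    have h4 : ((t (j + 1) - t j : ℝ≥0) : ℝ) ≤ ((1 / 200 : ℝ≥0) : ℝ) := by exact_mod_cast hsm j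
    rw [le_div_iff₀ h3]
    norm_num at h4
    linarith
  exact le_mul_of_one_le_right (abs_nonneg _) h2

lemma solY_T_eq (hcp : Coef F β t T (cf β t 1)) (hcm : Coef F β t T (cf β t (-1)))
    (hpos : ∀ j, 0 < t (j + 1) - t j) (hsm : ∀ j, t (j + 1) - t j ≤ 1 / 200)
    {ω : Ω} (h : ω ∈ Gd β t) :
    solY t (cf β t 1) β 1 T ω = solY t (cf β t (-1)) β 0 T ω := by
  have htT := hcp.le
  have hcp1 := hcp.comp measurable_g1 abs_g1_le
  have hcm1 := hcm.comp measurable_g1 abs_g1_le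
  obtain ⟨G, hG⟩ := path_bdd β T ω h.1
  have e1 : J t (fun j => g1 (cf β t 1 j ω)) (fun r => (r : ℝ)) T -
      J t (fun j => g1 (cf β t (-1) j ω)) (fun r => (r : ℝ)) T =
      J t (fun j => g1 (cf β t 1 j ω) - g1 (cf β t (-1) j ω)) (fun r => (r : ℝ)) T :=
    J_sub (id_bdd T) htT (hcp1.summ ω) (hcm1.summ ω) T
  have e2 : J t (fun j => cf β t 1 j ω) (fun r => β r ω) T -
      J t (fun j => cf β t (-1) j ω) (fun r => β r ω) T =
      J t (fun j => cf β t 1 j ω - cf β t (-1) j ω) (fun r => β r ω) T :=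
    J_sub hG htT (hcp.summ ω) (hcm.summ ω) T
  have s1 : Summable fun j => |g1 (cf β t 1 j ω) - g1 (cf β t (-1) j ω)| :=
    Summable.of_nonneg_of_le (fun _ => abs_nonneg _) (fun j => abs_sub _ _)
      ((hcp1.summ ω).add (hcm1.summ ω))
  have s2 : Summable fun j => |cf β t 1 j ω - cf β t (-1) j ω| :=
    Summable.of_nonneg_of_le (fun _ => abs_nonneg _) (fun j => abs_sub _ _)
      ((hcp.summ ω).add (hcm.summ ω))
  have s3 := J_summable (id_bdd T) htT s1 T
  have s4 := J_summable hG htT s2 T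
  -- the telescoping sum
  have key : -J t (fun j => g1 (cf β t 1 j ω) - g1 (cf β t (-1) j ω)) (fun r => (r : ℝ)) T +
      J t (fun j => cf β t 1 j ω - cf β t (-1) j ω) (fun r => β r ω) T = -1 := by
    have hs := (s3.neg.add s4).hasSum
    rw [(s3.neg).tsum_add s4, tsum_neg] at hs
    have hlim := hs.tendsto_sum_nat
    have hterm : ∀ j, (-((g1 (cf β t 1 j ω) - g1 (cf β t (-1) j ω)) *
        (((min (t (j + 1)) T : ℝ≥0) : ℝ) - ((min (t j) T : ℝ≥0) : ℝ))) +
        (cf β t 1 j ω - cf β t (-1) j ω) * (β (min (t (j + 1)) T) ω - β (min (t j) T) ω)) =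
        chn β t (j + 1) ω - chn β t j ω := by
      intro j
      rw [min_eq_left (htT _), min_eq_left (htT _)]
      have h5 : (0 : ℝ) < ((t (j + 1) - t j : ℝ≥0) : ℝ) := by exact_mod_cast hpos j
      have h6 := stp_zt ((t (j + 1) - t j : ℝ≥0) : ℝ) (chn β t j ω)
        (β (t (j + 1)) ω - β (t j) ω) h5
      have h7 : ((t (j + 1) - t j : ℝ≥0) : ℝ) = (t (j + 1) : ℝ) - t j :=
        NNReal.coe_sub (hcp.mono (Nat.le_succ j))
      have h8 : chn β t (j + 1) ω = stp ((t (j + 1) - t j : ℝ≥0) : ℝ) (chn β t j ω)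
        (β (t (j + 1)) ω - β (t j) ω) := rfl
      rw [h8, h6]
      unfold cf
      rw [Set.indicator_of_mem h, Set.indicator_of_mem h, h7]
      ring
    have hlim2 : Tendsto (fun n : ℕ => ∑ j ∈ Finset.range n,
        (chn β t (j + 1) ω - chn β t j ω)) atTop (𝓝 (-1)) := by
      have : (fun n : ℕ => ∑ j ∈ Finset.range n, (chn β t (j + 1) ω - chn β t j ω)) =
          fun n => chn β t n ω - 1 := by
        funext n
        rw [Finset.sum_range_sub (fun j => chn β t j ω)]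
        rfl
      rw [this]
      have := (chn_tendsto hpos hsm h).sub_const 1
      simpa using this
    refine tendsto_nhds_unique hlim (hlim2.congr fun n => ?_)
    exact Finset.sum_congr rfl fun j _ => (hterm j).symm
  unfold solY
  linarith [e1, e2, key]

end

end Pool.Agent.R228.BS
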