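import Mathlib

/-!
# MP_3fc9e2_pr: definitions

The backward stochastic differential equation with generator `|z| sin |z|`, its solutions, and
class (D).
-/

open MeasureTheory ProbabilityTheory Filter Topology
open scoped NNReal ENNReal

namespace Pool.Agent.R228.BS

/-- `ℝ^d` with its Euclidean norm. -/
abbrev E (d : ℕ) : Type := EuclideanSpace ℝ (Fin d)

/-- `B` is a `d`-dimensional standard Brownian motion on `(Ω, P)`: its coordinates are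
independent real standard Brownian motions. -/
structure IsBrownianVec {Ω : Type*} [MeasurableSpace Ω] {d : ℕ} (P : Measure Ω)
    (B : ℝ≥0 → Ω → E d) : Prop where
  meas : ∀ t, Measurable (B t)
  coord : ∀ i, IsBrownianReal (fun t ω => B t ω i) P
  indep : iIndepFun (fun (i : Fin d) (ω : Ω) (t : ℝ≥0) => B t ω i) P

/-- The completed natural filtration of `B`: `F_t` is generated by the `B_s`, `s ≤ t`, and the
null sets of `P`. -/
def natFilt {Ω : Type*} [mΩ : MeasurableSpace Ω] {d : ℕ} (P : Measure Ω) [P.IsComplete]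
    (B : ℝ≥0 → Ω → E d) (hB : ∀ t, Measurable (B t)) : Filtration ℝ≥0 mΩ where
  seq t := (⨆ s : ℝ≥0, ⨆ _ : s ≤ t, MeasurableSpace.comap (B s) inferInstance) ⊔
    MeasurableSpace.generateFrom {A : Set Ω | P A = 0}
  mono' s t hst := by
    refine sup_le_sup_right ?_ _
    refine iSup_le fun r => iSup_le fun hr => ?_
    exact le_iSup₂_of_le r (hr.trans hst) le_rfl
  le' t := by
    refine sup_le (iSup_le fun s => iSup_le fun _ => (hB s).comap_le) ?_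
    refine MeasurableSpace.generateFrom_le fun A hA => ?_
    have hA0 : P A = 0 := by simpa using hA
    exact measurableSet_of_null hA0

/-- The generator `g(z) = |z| sin |z|`. -/
noncomputable def gen {d : ℕ} (z : E d) : ℝ := ‖z‖ * Real.sin ‖z‖

/-- A simple process: on `(t k, t (k+1)]`, `k < n`, it is equal to the bounded
`F_{t k}`-measurable random vector `ζ k`, and it vanishes elsewhere. -/
structure SimpleProc {Ω : Type*} [mΩ : MeasurableSpace Ω] (F : Filtration ℝ≥0 mΩ) (d : ℕ) where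
  n : ℕ
  t : ℕ → ℝ≥0
  mono : Monotone t
  ζ : ℕ → Ω → E d
  meas : ∀ k, StronglyMeasurable[F (t k)] (ζ k)
  bdd : ∃ C : ℝ, ∀ k ω, ‖ζ k ω‖ ≤ C

/-- The value of a simple process at time `s`. -/
noncomputable def SimpleProc.val {Ω : Type*} [mΩ : MeasurableSpace Ω] {F : Filtration ℝ≥0 mΩ}
    {d : ℕ} (V : SimpleProc F d) (s : ℝ≥0) (ω : Ω) : E d :=
  ∑ k ∈ Finset.range V.n, (Set.Ioc (V.t k) (V.t (k + 1))).indicator (fun _ => V.ζ k ω) s

/-- The stochastic integral `∫_0^t V · dB` of a simple process. -/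
noncomputable def SimpleProc.int {Ω : Type*} [mΩ : MeasurableSpace Ω] {F : Filtration ℝ≥0 mΩ}
    {d : ℕ} (V : SimpleProc F d) (B : ℝ≥0 → Ω → E d) (t : ℝ≥0) (ω : Ω) : ℝ :=
  ∑ k ∈ Finset.range V.n,
    inner ℝ (V.ζ k ω) (B (min (V.t (k + 1)) t) ω - B (min (V.t k) t) ω)

/-- `M` is (a version of) the Itô integral process `(∫_0^t Z · dB)`, `t ∈ [0,T]`: there are simple
processes `V n` such that `∫_0^T |V n - Z|² ds → 0` and `sup_{t ≤ T} |∫_0^t V n · dB - M_t| → 0`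
in probability. -/
def IsItoIntegral {Ω : Type*} [mΩ : MeasurableSpace Ω] (P : Measure Ω) (F : Filtration ℝ≥0 mΩ)
    {d : ℕ} (B : ℝ≥0 → Ω → E d) (T : ℝ≥0) (Z : ℝ≥0 → Ω → E d) (M : ℝ≥0 → Ω → ℝ) : Prop :=
  ∃ V : ℕ → SimpleProc F d,
    (∀ ε : ℝ≥0∞, 0 < ε → Tendsto (fun n => P {ω | ε ≤
      ∫⁻ s in Set.Icc (0 : ℝ) T, ‖(V n).val s.toNNReal ω - Z s.toNNReal ω‖ₑ ^ 2}) atTop (𝓝 0)) ∧
    (∀ ε : ℝ, 0 < ε → Tendsto (fun n => P {ω | ∃ t : ℝ≥0, t ≤ T ∧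
      ε ≤ |(V n).int B t ω - M t ω|}) atTop (𝓝 0))

/-- `(Y, Z)` is a solution of
`Y_t = ξ + ∫_t^T |Z_s| sin |Z_s| ds - ∫_t^T Z_s · dB_s`, `t ∈ [0,T]`.
(The processes are indexed by `ℝ≥0`; only their restrictions to `[0,T]` occur in the
equation.) -/
structure IsSolution {Ω : Type*} [mΩ : MeasurableSpace Ω] (P : Measure Ω) (F : Filtration ℝ≥0 mΩ)
    {d : ℕ} (B : ℝ≥0 → Ω → E d) (T : ℝ≥0) (ξ : Ω → ℝ) (Y : ℝ≥0 → Ω → ℝ)
    (Z : ℝ≥0 → Ω → E d) : Prop where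
  progY : IsStronglyProgressive F Y
  progZ : IsStronglyProgressive F Z
  cont : ∀ ω, Continuous fun t => Y t ω
  sq : ∀ᵐ ω ∂P, ∫⁻ s in Set.Icc (0 : ℝ) T, ‖Z s.toNNReal ω‖ₑ ^ 2 < ∞
  eqn : ∃ M : ℝ≥0 → Ω → ℝ, IsItoIntegral P F B T Z M ∧ ∀ᵐ ω ∂P, ∀ t : ℝ≥0, t ≤ T →
    Y t ω = ξ ω + (∫ s in (t : ℝ)..T, gen (Z s.toNNReal ω)) - (M T ω - M t ω)

/-- Class (D): the family of all `X_τ`, `τ` a stopping time with values in `[0,T]`, is uniformly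
integrable. -/
def ClassD {Ω : Type*} [mΩ : MeasurableSpace Ω] (P : Measure Ω) (F : Filtration ℝ≥0 mΩ)
    (T : ℝ≥0) (X : ℝ≥0 → Ω → ℝ) : Prop :=
  UniformIntegrable (fun (τ : {τ : Ω → ℝ≥0 //
    IsStoppingTime F (fun ω => ((τ ω : ℝ≥0) : WithTop ℝ≥0)) ∧ ∀ ω, τ ω ≤ T}) (ω : Ω) =>
      X (τ.1 ω) ω) 1 P

/-- Two solutions are identified when `Y`, `Y'` are indistinguishable on `[0,T]` and
`Z = Z'` holds `dP ⊗ dt`-a.e. on `Ω × [0,T]`. -/
def SameSol {Ω : Type*} [mΩ : MeasurableSpace Ω] (P : Measure Ω) {d : ℕ} (T : ℝ≥0)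
    (Y : ℝ≥0 → Ω → ℝ) (Z : ℝ≥0 → Ω → E d) (Y' : ℝ≥0 → Ω → ℝ) (Z' : ℝ≥0 → Ω → E d) : Prop :=
  (∀ᵐ ω ∂P, ∀ t : ℝ≥0, t ≤ T → Y t ω = Y' t ω) ∧
    ∀ᵐ p ∂(P.prod (volume.restrict (Set.Icc (0 : ℝ) T))), Z p.2.toNNReal p.1 = Z' p.2.toNNReal p.1

/-- The uniqueness statement of Q1, for given `p`: for each `ξ ∈ L^p(F_T)` there is at most one
solution for which `|Y|^p` is of class (D). -/
def UniqueLp {Ω : Type*} [mΩ : MeasurableSpace Ω] (P : Measure Ω) (F : Filtration ℝ≥0 mΩ)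
    {d : ℕ} (B : ℝ≥0 → Ω → E d) (T : ℝ≥0) (p : ℝ) : Prop :=
  ∀ ξ : Ω → ℝ, StronglyMeasurable[F T] ξ → MemLp ξ (ENNReal.ofReal p) P →
    ∀ (Y : ℝ≥0 → Ω → ℝ) (Z : ℝ≥0 → Ω → E d) (Y' : ℝ≥0 → Ω → ℝ) (Z' : ℝ≥0 → Ω → E d),
      IsSolution P F B T ξ Y Z → IsSolution P F B T ξ Y' Z' →
      ClassD P F T (fun t ω => |Y t ω| ^ p) → ClassD P F T (fun t ω => |Y' t ω| ^ p) →
      SameSol P T Y Z Y' Z'

end Pool.Agent.R228.BS
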