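import Pool.Agent.R228.BS.Stm

/-!
# Bounds for one step of the chain

The Gaussian moments are computed as in `Pool/Agent/Helper41/BS/Mom.lean`.
-/

set_option autoImplicit false

open MeasureTheory ProbabilityTheory Filter Topology
open scoped NNReal ENNReal

namespace Pool.Agent.R228.BS

theorem kern_int (v : ℝ≥0) (k : ℕ) : Integrable (fun x : ℝ => |x| ^ k) (gaussianReal 0 v) := by
  rcases Nat.eq_zero_or_pos k with rfl | hk
  · simp
  · have h := memLp_id_gaussianReal' (μ := 0) (v := v) (k : ℝ≥0∞) (by simp)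
    have h2 := h.integrable_norm_pow hk.ne'
    simpa using h2

theorem kern_int' (v : ℝ≥0) (k : ℕ) : Integrable (fun x : ℝ => x ^ k) (gaussianReal 0 v) := by
  refine (kern_int v k).mono (by fun_prop) (Filter.Eventually.of_forall (fun x => ?_))
  simp

theorem kern_m2 (v : ℝ≥0) : ∫ x, x ^ 2 ∂(gaussianReal 0 v) = v := by
  have h := variance_fun_id_gaussianReal (μ := 0) (v := v)
  rw [variance_eq_integral measurable_id'.aemeasurable] at h
  simpa using h

theorem kern_m4 (v : ℝ≥0) : ∫ x, x ^ 4 ∂(gaussianReal 0 v) = 3 * (v : ℝ) ^ 2 := by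
  have h := iteratedDeriv_mgf_zero (X := fun x : ℝ => x) (μ := gaussianReal 0 v) (by simp) 4
  have h0 : (gaussianReal 0 v)[(fun x : ℝ => x) ^ 4] = ∫ x, x ^ 4 ∂(gaussianReal 0 v) := rfl
  rw [h0] at h
  rw [← h, mgf_fun_id_gaussianReal]
  have e0 : (fun t : ℝ => Real.exp (0 * t + v * t ^ 2 / 2)) = fun t : ℝ => Real.exp (v * t ^ 2 / 2) := by
    funext t; rw [zero_mul, zero_add]
  rw [e0]
  have d0 : ∀ t : ℝ, HasDerivAt (fun t : ℝ => Real.exp (v * t ^ 2 / 2))
      (v * t * Real.exp (v * t ^ 2 / 2)) t := by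
    intro t
    have h1 : HasDerivAt (fun t : ℝ => (v : ℝ) * t ^ 2 / 2) (v * t) t := by
      have := ((hasDerivAt_pow 2 t).const_mul (v : ℝ)).div_const 2
      convert! this using 1
      push_cast
      ring
    have h2 := h1.exp
    convert! h2 using 1
    ring
  have e1 : deriv (fun t : ℝ => Real.exp (v * t ^ 2 / 2)) =
      fun t : ℝ => v * t * Real.exp (v * t ^ 2 / 2) := funext fun t => (d0 t).deriv
  have e2 : deriv (fun t : ℝ => v * t * Real.exp (v * t ^ 2 / 2)) =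
      fun t : ℝ => ((v : ℝ) + v ^ 2 * t ^ 2) * Real.exp (v * t ^ 2 / 2) := by
    funext t
    have h1 : HasDerivAt (fun t : ℝ => (v : ℝ) * t) v t := by
      simpa using (hasDerivAt_id t).const_mul (v : ℝ)
    have h2 := (h1.mul (d0 t)).deriv
    refine Eq.trans h2 ?_
    ring
  have e3 : deriv (fun t : ℝ => ((v : ℝ) + v ^ 2 * t ^ 2) * Real.exp (v * t ^ 2 / 2)) =
      fun t : ℝ => (3 * (v : ℝ) ^ 2 * t + v ^ 3 * t ^ 3) * Real.exp (v * t ^ 2 / 2) := by
    funext t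
    have h1 : HasDerivAt (fun t : ℝ => (v : ℝ) + v ^ 2 * t ^ 2) (v ^ 2 * (2 * t)) t := by
      have := ((hasDerivAt_pow 2 t).const_mul ((v : ℝ) ^ 2)).const_add (v : ℝ)
      simpa using this
    have h2 := (h1.mul (d0 t)).deriv
    refine Eq.trans h2 ?_
    ring
  have e4 : deriv (fun t : ℝ => (3 * (v : ℝ) ^ 2 * t + v ^ 3 * t ^ 3) * Real.exp (v * t ^ 2 / 2)) 0 =
      3 * (v : ℝ) ^ 2 := by
    have h1 : HasDerivAt (fun t : ℝ => 3 * (v : ℝ) ^ 2 * t + v ^ 3 * t ^ 3)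
        (3 * (v : ℝ) ^ 2 + v ^ 3 * (3 * 0 ^ 2)) 0 := by
      have a1 : HasDerivAt (fun t : ℝ => 3 * (v : ℝ) ^ 2 * t) (3 * (v : ℝ) ^ 2) 0 := by
        simpa using (hasDerivAt_id (0 : ℝ)).const_mul (3 * (v : ℝ) ^ 2)
      have a2 : HasDerivAt (fun t : ℝ => (v : ℝ) ^ 3 * t ^ 3) (v ^ 3 * (3 * 0 ^ 2)) 0 := by
        have := (hasDerivAt_pow 3 (0 : ℝ)).const_mul ((v : ℝ) ^ 3)
        simpa using this
      exact a1.add a2
    have h2 := (h1.mul (d0 0)).deriv
    refine Eq.trans h2 ?_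
    simp
  rw [iteratedDeriv_succ, iteratedDeriv_succ, iteratedDeriv_succ, iteratedDeriv_one, e1, e2, e3, e4]


theorem kern_m1 (v : ℝ≥0) : ∫ x, x ∂(gaussianReal 0 v) = 0 := integral_id_gaussianReal

theorem kern_m3 (v : ℝ≥0) : ∫ x, x ^ 3 ∂(gaussianReal 0 v) = 0 := by
  have h1 : (gaussianReal 0 v).map (fun x => -x) = gaussianReal 0 v := by
    rw [gaussianReal_map_neg, neg_zero]
  have h2 : ∫ x, x ^ 3 ∂(gaussianReal 0 v) = ∫ x, (-x) ^ 3 ∂(gaussianReal 0 v) := by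
    conv_lhs => rw [← h1]
    rw [integral_map (by fun_prop) (by fun_prop)]
  have h3 : ∫ x, (-x) ^ 3 ∂(gaussianReal 0 v) = - ∫ x, x ^ 3 ∂(gaussianReal 0 v) := by
    rw [← integral_neg]
    congr 1
    funext x
    ring
  linarith

theorem kern_lint {μ : Measure ℝ} {F g : ℝ → ℝ} {b : ℝ} (hFg : ∀ y, F y ≤ g y)
    (h0 : ∀ y, 0 ≤ F y) (hg : Integrable g μ) (hI : ∫ y, g y ∂μ ≤ b) :
    ∫⁻ y, ENNReal.ofReal (F y) ∂μ ≤ ENNReal.ofReal b := by
  calc ∫⁻ y, ENNReal.ofReal (F y) ∂μ ≤ ∫⁻ y, ENNReal.ofReal (g y) ∂μ :=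
        lintegral_mono fun y => ENNReal.ofReal_le_ofReal (hFg y)
    _ = ENNReal.ofReal (∫ y, g y ∂μ) :=
        (ofReal_integral_eq_lintegral_ofReal hg
          (Eventually.of_forall fun y => (h0 y).trans (hFg y))).symm
    _ ≤ ENNReal.ofReal b := ENNReal.ofReal_le_ofReal hI

theorem kern_poly (t : ℝ) :
    √|1 + t| ≤ 1 + t / 2 - t ^ 2 / 8 + t ^ 3 / 16 + t ^ 4 / 4 := by
  set u := √|1 + t| with hu
  have hu0 : 0 ≤ u := Real.sqrt_nonneg _
  have hu2 : u ^ 2 = |1 + t| := Real.sq_sqrt (abs_nonneg _)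
  rcases le_total 0 (1 + t) with h | h
  · rw [abs_of_nonneg h] at hu2
    have ht : t = u ^ 2 - 1 := by linarith
    rw [ht]
    have e : 1 + (u ^ 2 - 1) / 2 - (u ^ 2 - 1) ^ 2 / 8 + (u ^ 2 - 1) ^ 3 / 16
        + (u ^ 2 - 1) ^ 4 / 4 - u
        = (u - 1) ^ 4 * (9 / 16 + 5 / 4 * u + 25 / 16 * u ^ 2 + u ^ 3 + u ^ 4 / 4) := by ring
    have h2 : 0 ≤ (u - 1) ^ 4 * (9 / 16 + 5 / 4 * u + 25 / 16 * u ^ 2 + u ^ 3 + u ^ 4 / 4) := by
      have : 0 ≤ (u - 1) ^ 4 := by positivity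
      positivity
    linarith
  · rw [abs_of_nonpos h] at hu2
    set w := u ^ 2 with hw
    have hw0 : 0 ≤ w := sq_nonneg u
    have ht : t = -1 - w := by linarith
    have huw : u ≤ (1 + w) / 2 := by nlinarith [sq_nonneg (u - 1)]
    rw [ht]
    have e : 1 + (-1 - w) / 2 - (-1 - w) ^ 2 / 8 + (-1 - w) ^ 3 / 16 + (-1 - w) ^ 4 / 4
        - (1 + w) / 2 = (1 / 16 - 7 / 16 * w + 19 / 16 * w ^ 2) + 15 / 16 * w ^ 3 + w ^ 4 / 4 := by
      ring
    have h1 : 0 ≤ 1 / 16 - 7 / 16 * w + 19 / 16 * w ^ 2 := by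
      nlinarith [sq_nonneg (w - 7 / 38)]
    have h2 : 0 ≤ 15 / 16 * w ^ 3 + w ^ 4 / 4 := by positivity
    linarith

theorem kern_poly2 (z : ℝ) : √|z| ≤ 3 / 8 + 2 * z ^ 2 := by
  set u := √|z| with hu
  have hu0 : 0 ≤ u := Real.sqrt_nonneg _
  have hu2 : u ^ 2 = |z| := Real.sq_sqrt (abs_nonneg _)
  have hz : z ^ 2 = u ^ 4 := by
    have : u ^ 4 = (u ^ 2) ^ 2 := by ring
    rw [this, hu2, sq_abs]
  rw [hz]
  have e : 3 / 8 + 2 * u ^ 4 - u = (u - 1 / 2) ^ 2 * (2 * u ^ 2 + 2 * u + 3 / 2) := by ring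
  have h2 : 0 ≤ (u - 1 / 2) ^ 2 * (2 * u ^ 2 + 2 * u + 3 / 2) := by positivity
  linarith

theorem kern_rem {v : ℝ} (hv : 0 < v) (x : ℝ) :
    0 ≤ x - 4 * Real.pi * ⌊x / (4 * Real.pi * v)⌋ * v ∧
      x - 4 * Real.pi * ⌊x / (4 * Real.pi * v)⌋ * v ≤ 4 * Real.pi * v := by
  have hp : 0 < 4 * Real.pi * v := by positivity
  have h1 := Int.floor_le (x / (4 * Real.pi * v))
  have h2 := Int.lt_floor_add_one (x / (4 * Real.pi * v))
  rw [le_div_iff₀ hp] at h1
  rw [div_lt_iff₀ hp] at h2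
  constructor <;> linarith

theorem kern_quartic (v : ℝ≥0) (a b c d e : ℝ) :
    Integrable (fun y : ℝ => a + b * y + c * y ^ 2 + d * y ^ 3 + e * y ^ 4) (gaussianReal 0 v) ∧
    ∫ y, (a + b * y + c * y ^ 2 + d * y ^ 3 + e * y ^ 4) ∂(gaussianReal 0 v)
      = a + c * v + e * (3 * (v : ℝ) ^ 2) := by
  have i0 : Integrable (fun _ : ℝ => a) (gaussianReal 0 v) := integrable_const a
  have i1 : Integrable (fun y : ℝ => b * y) (gaussianReal 0 v) := by
    have := (kern_int' v 1).const_mul b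
    simpa using this
  have i2 := (kern_int' v 2).const_mul c
  have i3 := (kern_int' v 3).const_mul d
  have i4 := (kern_int' v 4).const_mul e
  have j1 : Integrable (fun y : ℝ => a + b * y) (gaussianReal 0 v) := i0.add i1
  have j2 : Integrable (fun y : ℝ => a + b * y + c * y ^ 2) (gaussianReal 0 v) := j1.add i2
  have j3 : Integrable (fun y : ℝ => a + b * y + c * y ^ 2 + d * y ^ 3) (gaussianReal 0 v) :=
    j2.add i3
  refine ⟨j3.add i4, ?_⟩
  rw [integral_add j3 i4, integral_add j2 i3,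
    integral_add j1 i2, integral_add i0 i1, integral_const_mul, integral_const_mul,
    integral_const_mul, integral_const_mul, kern_m1, kern_m2, kern_m3, kern_m4, integral_const]
  simp

theorem kern_sqrt {v : ℝ} (hv : 0 < v) : (1 / (4 * √v)) ^ 2 * v = 1 / 16 := by
  have h : √v ^ 2 = v := Real.sq_sqrt hv.le
  have h0 : 0 < √v := Real.sqrt_pos.2 hv
  rw [div_pow, mul_pow, h]
  field_simp
  norm_num

theorem stmB1 : StmB1 := by
  intro v hv hv2 x
  have hvr : (0 : ℝ) < v := by exact_mod_cast hv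
  have hvr2 : (v : ℝ) ≤ 1 / 200 := by
    have : (v : ℝ) ≤ ((1 / 200 : ℝ≥0) : ℝ) := by exact_mod_cast hv2
    simpa using this
  by_cases hx : |x| < 1
  · set s : ℝ := 1 / (4 * √(v : ℝ)) with hs
    have hs2 := kern_sqrt hvr
    rw [← hs] at hs2
    obtain ⟨hi, hI⟩ := kern_quartic v (√|x|) (√|x| * (s / 2)) (-(√|x| * (s ^ 2 / 8)))
      (√|x| * (s ^ 3 / 16)) (√|x| * (s ^ 4 / 4))
    refine kern_lint (fun y => ?_) (fun y => Real.sqrt_nonneg _) hi ?_
    · unfold stp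
      rw [if_pos hx, abs_mul, Real.sqrt_mul (abs_nonneg _)]
      have e : y / (4 * √(v : ℝ)) = s * y := by
        rw [hs]
        ring
      rw [e]
      have h1 := mul_le_mul_of_nonneg_left (kern_poly (s * y)) (Real.sqrt_nonneg |x|)
      refine h1.trans (le_of_eq ?_)
      ring
    · rw [hI]
      have e1 : s ^ 4 * (v : ℝ) ^ 2 = 1 / 256 := by
        have : s ^ 4 * (v : ℝ) ^ 2 = (s ^ 2 * v) ^ 2 := by ring
        rw [this, hs2]
        norm_num
      have e2 : √|x| + -(√|x| * (s ^ 2 / 8)) * (v : ℝ) + √|x| * (s ^ 4 / 4) * (3 * (v : ℝ) ^ 2)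
          = √|x| * (1 - (s ^ 2 * v) / 8 + 3 / 4 * (s ^ 4 * (v : ℝ) ^ 2)) := by ring
      rw [e2, e1, hs2]
      have := Real.sqrt_nonneg |x|
      nlinarith
  · rw [not_lt] at hx
    set r := x - 4 * Real.pi * ⌊x / (4 * Real.pi * v)⌋ * v with hr
    obtain ⟨hr0, hr1⟩ := kern_rem hvr x
    rw [← hr] at hr0 hr1
    obtain ⟨hi, hI⟩ := kern_quartic v (3 / 8 + 2 * r ^ 2) (4 * r * Real.pi) (2 * Real.pi ^ 2) 0 0
    refine kern_lint (fun y => ?_) (fun y => Real.sqrt_nonneg _) hi ?_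
    · unfold stp
      rw [if_neg (not_lt.2 hx), ← hr]
      refine (kern_poly2 _).trans (le_of_eq ?_)
      ring
    · rw [hI]
      have hsx : 1 ≤ √|x| := by
        rw [Real.one_le_sqrt]
        exact hx
      have hpi := Real.pi_lt_d2
      have hpi0 := Real.pi_pos
      have hpi2 : Real.pi ^ 2 ≤ 9.9225 := by nlinarith
      have hr2 : r ≤ 0.063 := by nlinarith
      have hr3 : r ^ 2 ≤ 0.004 := by nlinarith
      have hv3 : Real.pi ^ 2 * v ≤ 0.05 := by nlinarith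
      nlinarith

theorem kern_scale (v : ℝ≥0) (q : ℕ) :
    ∫ y, |y| ^ q ∂(gaussianReal 0 v) = √(v : ℝ) ^ q * ∫ y, |y| ^ q ∂(gaussianReal 0 1) := by
  have h1 : (gaussianReal 0 1).map (fun x => √(v : ℝ) * x) = gaussianReal 0 v := by
    rw [gaussianReal_map_const_mul]
    congr 1
    · simp
    · ext
      simp
  conv_lhs => rw [← h1]
  rw [integral_map (by fun_prop) (by fun_prop), ← integral_const_mul]
  congr 1
  funext y
  rw [abs_mul, mul_pow, abs_of_nonneg (Real.sqrt_nonneg _)]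

theorem kern_add_pow {a b : ℝ} (ha : 0 ≤ a) (hb : 0 ≤ b) (q : ℕ) :
    (a + b) ^ q ≤ 2 ^ q * (a ^ q + b ^ q) := by
  rcases le_total a b with h | h
  · calc (a + b) ^ q ≤ (2 * b) ^ q := by
          gcongr
          linarith
      _ = 2 ^ q * b ^ q := mul_pow _ _ _
      _ ≤ 2 ^ q * (a ^ q + b ^ q) := by
          gcongr
          have := pow_nonneg ha q
          linarith
  · calc (a + b) ^ q ≤ (2 * a) ^ q := by
          gcongr
          linarith
      _ = 2 ^ q * a ^ q := mul_pow _ _ _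
      _ ≤ 2 ^ q * (a ^ q + b ^ q) := by
          gcongr
          have := pow_nonneg hb q
          linarith

theorem stmB2 : StmB2 := by
  intro q hq
  set m : ℝ := ∫ y, |y| ^ q ∂(gaussianReal 0 1) with hm
  have hm0 : 0 ≤ m := integral_nonneg fun y => by positivity
  have hpi0 := Real.pi_pos
  have hpi3 := Real.pi_gt_three
  have hpiq : 1 ≤ Real.pi ^ q := one_le_pow₀ (by linarith)
  refine ⟨2 ^ q * (1 + Real.pi ^ q * m), by positivity, ?_⟩
  intro v hv hv2 x
  have hvr : (0 : ℝ) < v := by exact_mod_cast hv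
  have hvr2 : (v : ℝ) ≤ 1 / 200 := by
    have : (v : ℝ) ≤ ((1 / 200 : ℝ≥0) : ℝ) := by exact_mod_cast hv2
    simpa using this
  have hsv0 : 0 < √(v : ℝ) := Real.sqrt_pos.2 hvr
  have hsv1 : √(v : ℝ) ≤ 1 := by
    rw [Real.sqrt_le_one]
    linarith
  have habs : Integrable (fun y : ℝ => |y| ^ q) (gaussianReal 0 v) := kern_int v q
  have hform : ∀ a b : ℝ, ∫ y, (a + b * |y| ^ q) ∂(gaussianReal 0 v)
      = a + b * (√(v : ℝ) ^ q * m) := by
    intro a b
    rw [integral_add (integrable_const a) (habs.const_mul b), integral_const_mul, kern_scale,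
      integral_const]
    simp [hm]
  have hinti : ∀ a b : ℝ, Integrable (fun y : ℝ => a + b * |y| ^ q) (gaussianReal 0 v) :=
    fun a b => (integrable_const a).add (habs.const_mul b)
  by_cases hx : |x| < 1
  · set s : ℝ := 1 / (4 * √(v : ℝ)) with hs
    have hs0 : 0 < s := by positivity
    have hxq : |x| ^ q ≤ √|x| := by
      have h1 : |x| ^ q ≤ |x| ^ 1 := pow_le_pow_of_le_one (abs_nonneg _) hx.le hq
      rw [pow_one] at h1
      refine h1.trans ?_
      apply Real.le_sqrt_of_sq_le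
      nlinarith [abs_nonneg x]
    refine kern_lint (g := fun y => √|x| * 2 ^ q + √|x| * 2 ^ q * s ^ q * |y| ^ q) (fun y => ?_)
      (fun y => by positivity) (hinti _ _) ?_
    · unfold stp
      rw [if_pos hx, abs_mul, mul_pow]
      have e : y / (4 * √(v : ℝ)) = s * y := by
        rw [hs]
        ring
      rw [e]
      have h1 : |1 + s * y| ≤ 1 + s * |y| := by
        refine (abs_add_le _ _).trans ?_
        rw [abs_one, abs_mul, abs_of_pos hs0]
      have h2 : |1 + s * y| ^ q ≤ 2 ^ q * (1 + s ^ q * |y| ^ q) := by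
        calc |1 + s * y| ^ q ≤ (1 + s * |y|) ^ q := by gcongr
          _ ≤ 2 ^ q * (1 ^ q + (s * |y|) ^ q) := kern_add_pow (by norm_num) (by positivity) q
          _ = _ := by rw [one_pow, mul_pow]
      calc |x| ^ q * |1 + s * y| ^ q ≤ √|x| * (2 ^ q * (1 + s ^ q * |y| ^ q)) :=
            mul_le_mul hxq h2 (by positivity) (Real.sqrt_nonneg _)
        _ = _ := by ring
    · rw [hform]
      have e1 : s ^ q * √(v : ℝ) ^ q ≤ Real.pi ^ q := by
        rw [← mul_pow]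
        have : s * √(v : ℝ) = 1 / 4 := by
          rw [hs]
          field_simp
        rw [this]
        gcongr
        linarith
      have e2 : √|x| * 2 ^ q + √|x| * 2 ^ q * s ^ q * (√(v : ℝ) ^ q * m)
          = √|x| * 2 ^ q * (1 + (s ^ q * √(v : ℝ) ^ q) * m) := by ring
      rw [e2]
      have e3 : (s ^ q * √(v : ℝ) ^ q) * m ≤ Real.pi ^ q * m := mul_le_mul_of_nonneg_right e1 hm0
      calc √|x| * 2 ^ q * (1 + (s ^ q * √(v : ℝ) ^ q) * m)
          ≤ √|x| * 2 ^ q * (1 + Real.pi ^ q * m) := by gcongr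
        _ = _ := by ring
  · rw [not_lt] at hx
    set r := x - 4 * Real.pi * ⌊x / (4 * Real.pi * v)⌋ * v with hr
    obtain ⟨hr0, hr1⟩ := kern_rem hvr x
    rw [← hr] at hr0 hr1
    have hr2 : r ≤ 1 := by
      have := Real.pi_lt_d2
      nlinarith
    have hsx : 1 ≤ √|x| := by
      rw [Real.one_le_sqrt]
      exact hx
    refine kern_lint (g := fun y => 2 ^ q + 2 ^ q * Real.pi ^ q * |y| ^ q) (fun y => ?_)
      (fun y => by positivity) (hinti _ _) ?_
    · unfold stp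
      rw [if_neg (not_lt.2 hx), ← hr]
      have h1 : |r + Real.pi * y| ≤ r + Real.pi * |y| := by
        refine (abs_add_le _ _).trans ?_
        rw [abs_of_nonneg hr0, abs_mul, abs_of_pos hpi0]
      calc |r + Real.pi * y| ^ q ≤ (r + Real.pi * |y|) ^ q := by gcongr
        _ ≤ 2 ^ q * (r ^ q + (Real.pi * |y|) ^ q) := kern_add_pow hr0 (by positivity) q
        _ ≤ 2 ^ q * (1 + (Real.pi * |y|) ^ q) := by
            gcongr
            exact pow_le_one₀ hr0 hr2
        _ = _ := by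
            rw [mul_pow]
            ring
    · rw [hform]
      have e1 : √(v : ℝ) ^ q ≤ 1 := pow_le_one₀ hsv0.le hsv1
      have e2 : √(v : ℝ) ^ q * m ≤ m := by nlinarith
      have e3 : (2 : ℝ) ^ q + 2 ^ q * Real.pi ^ q * (√(v : ℝ) ^ q * m)
          ≤ 2 ^ q * (1 + Real.pi ^ q * m) := by
        have : (2 : ℝ) ^ q * Real.pi ^ q * (√(v : ℝ) ^ q * m) ≤ 2 ^ q * Real.pi ^ q * m :=
          mul_le_mul_of_nonneg_left e2 (by positivity)
        linarith
      refine e3.trans ?_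
      have : 0 ≤ 2 ^ q * (1 + Real.pi ^ q * m) := by positivity
      nlinarith

end Pool.Agent.R228.BS
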