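import Pool.Agent.R228.BS.Coeff

/-!
# MP_3fc9e2_pr: class (D) and the main theorem
-/

open MeasureTheory ProbabilityTheory Filter Topology
open scoped NNReal ENNReal

namespace Pool.Agent.R228.BS

section
variable {Ω : Type*} [mΩ : MeasurableSpace Ω] {F : Filtration ℝ≥0 mΩ} {β : ℝ≥0 → Ω → ℝ}
  {t : ℕ → ℝ≥0} {T : ℝ≥0} {P : Measure Ω}

lemma classD_of_dom {X : ℝ≥0 → Ω → ℝ}
    (hX : ∀ τ : Ω → ℝ≥0, IsStoppingTime F (fun ω => ((τ ω : ℝ≥0) : WithTop ℝ≥0)) →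
      (∀ ω, τ ω ≤ T) → AEStronglyMeasurable (fun ω => X (τ ω) ω) P)
    {Φ : Ω → ℝ} (hΦ : Integrable Φ P) (hle : ∀ᵐ ω ∂P, ∀ s ≤ T, |X s ω| ≤ Φ ω) :
    ClassD P F T X := by
  have hΦ1 : MemLp Φ 1 P := memLp_one_iff_integrable.2 hΦ
  refine ⟨fun τ => hX τ.1 τ.2.1 τ.2.2, ?_, ?_⟩
  · intro ε hε
    obtain ⟨δ, hδ, h⟩ := hΦ1.eLpNorm_indicator_le le_rfl ENNReal.one_ne_top hε
    refine ⟨δ, hδ, fun τ s hs hμ => (eLpNorm_mono_ae ?_).trans (h s hs hμ)⟩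
    filter_upwards [hle] with ω hω
    by_cases hs : ω ∈ s
    · rw [Set.indicator_of_mem hs, Set.indicator_of_mem hs, Real.norm_eq_abs, Real.norm_eq_abs]
      exact (hω _ (τ.2.2 ω)).trans (le_abs_self _)
    · rw [Set.indicator_of_notMem hs, Set.indicator_of_notMem hs]
  · refine ⟨(eLpNorm Φ 1 P).toNNReal, fun τ => ?_⟩
    rw [ENNReal.coe_toNNReal hΦ1.2.ne]
    refine eLpNorm_mono_ae ?_
    filter_upwards [hle] with ω hω
    rw [Real.norm_eq_abs, Real.norm_eq_abs]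
    exact (hω _ (τ.2.2 ω)).trans (le_abs_self _)

lemma meas_stopped {Y : ℝ≥0 → Ω → ℝ} (hY : IsStronglyProgressive F Y) (τ : Ω → ℝ≥0)
    (hτ : IsStoppingTime F (fun ω => ((τ ω : ℝ≥0) : WithTop ℝ≥0))) (hle : ∀ ω, τ ω ≤ T) :
    StronglyMeasurable (fun ω => Y (τ ω) ω) := by
  have h1 := stronglyMeasurable_stoppedValue_of_le hY hτ (n := T)
    (fun ω => WithTop.coe_le_coe.2 (hle ω))
  have h2 : stoppedValue Y (fun ω => ((τ ω : ℝ≥0) : WithTop ℝ≥0)) = fun ω => Y (τ ω) ω := by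
    funext ω
    exact congrArg (fun r => Y r ω) (WithTop.untopD_coe _ _)
  rw [h2] at h1
  exact h1.mono (F.le T)

lemma memLp_R [IsProbabilityMeasure P] {G S : Ω → ℝ} {q r : ℝ≥0∞} [ENNReal.HolderTriple q q r]
    (hG : MemLp G q P) (hS : MemLp S q P) (x : ℝ) :
    MemLp (fun ω => 1 + (x + 2 * G ω) * S ω) r P := by
  have h0 : MemLp (fun ω => 2 * G ω) q P := hG.const_mul 2
  have hc : MemLp (fun _ : Ω => x) q P := memLp_const x
  have h1 : MemLp (fun ω => x + 2 * G ω) q P := hc.add h0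
  have h2 : MemLp (fun ω => (x + 2 * G ω) * S ω) r P := MemLp.mul' hS h1
  have hc' : MemLp (fun _ : Ω => (1 : ℝ)) r P := memLp_const 1
  exact hc'.add h2

lemma holder_nat (n : ℕ) : ENNReal.HolderTriple ((2 * n : ℕ) : ℝ≥0∞) ((2 * n : ℕ) : ℝ≥0∞)
    (n : ℝ≥0∞) := by
  refine ⟨?_⟩
  rw [Nat.cast_mul, Nat.cast_ofNat, ← two_mul, ENNReal.mul_inv (by simp) (by simp), ← mul_assoc,
    ENNReal.mul_inv_cancel (by simp) (by simp), one_mul]

lemma memLp_S [IsProbabilityMeasure P] (hβ : IsPreBrownianReal β P) (hm : ∀ s, Measurable (β s))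
    (ht : Monotone t) (hpos : ∀ j, 0 < t (j + 1) - t j) (hsm : ∀ j, t (j + 1) - t j ≤ 1 / 200)
    (K : ℝ) (hwK : ∀ j, wt t j ≤ K * ((j : ℝ) + 2) ^ 2) (q : ℕ) (hq : 1 ≤ q) :
    MemLp (fun ω => (bigS β t (wt t) ω).toReal) (q : ℝ≥0∞) P := by
  have hw : ∀ j, 0 ≤ wt t j := fun j => by
    unfold wt
    positivity
  have h1 := bigS_mom hβ hm ht hpos hsm (wt t) K hw hwK q hq
  have hq0 : q ≠ 0 := by omega
  refine ⟨(bigS_meas hm ht (wt t)).ennreal_toReal.aestronglyMeasurable, ?_⟩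
  rw [eLpNorm_lt_top_iff_lintegral_rpow_enorm_lt_top (by exact_mod_cast hq0) (by simp)]
  refine lt_of_le_of_lt (lintegral_mono fun ω => ?_) h1
  simp only [ENNReal.toReal_natCast, ENNReal.rpow_natCast]
  gcongr
  rw [← ofReal_norm, Real.norm_eq_abs, abs_of_nonneg ENNReal.toReal_nonneg]
  exact ENNReal.ofReal_toReal_le

lemma solY_bound {c : ℕ → Ω → ℝ} (hc : Coef F β t T c) (y0 : ℝ) (hy : |y0| ≤ 1) {ω : Ω} {G S : ℝ}
    (hG : ∀ s ≤ T, |β s ω| ≤ G) (hS : ∑' j, |c j ω| ≤ S) (s : ℝ≥0) :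
    |solY t c β y0 s ω| ≤ 1 + (2 * T + 2 * G) * S := by
  have hG0 : 0 ≤ G := (abs_nonneg _).trans (hG 0 (by simp))
  have hc1 := hc.comp measurable_g1 abs_g1_le
  have h1 := J_bound (id_bdd T) hc.le (hc1.summ ω) s
  have h2 := J_bound hG hc.le (hc.summ ω) s
  have h3 : ∑' j, |g1 (c j ω)| ≤ ∑' j, |c j ω| :=
    Summable.tsum_le_tsum (fun j => abs_g1_le _) (hc1.summ ω) (hc.summ ω)
  have hT : (0 : ℝ) ≤ T := T.coe_nonneg
  have h4 : 2 * (T : ℝ) * ∑' j, |g1 (c j ω)| ≤ 2 * T * S := by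
    refine mul_le_mul_of_nonneg_left (h3.trans hS) (by positivity)
  have h5 : 2 * G * ∑' j, |c j ω| ≤ 2 * G * S :=
    mul_le_mul_of_nonneg_left hS (by positivity)
  unfold solY
  calc _ ≤ |y0| + |J t (fun j => g1 (c j ω)) (fun r => (r : ℝ)) s| +
        |J t (fun j => c j ω) (fun r => β r ω) s| := by
        refine (abs_add_le _ _).trans ?_
        gcongr
        exact abs_sub _ _
    _ ≤ 1 + 2 * T * S + 2 * G * S := by linarith
    _ = _ := by ring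

lemma solY_zero {c : ℕ → Ω → ℝ} (y0 : ℝ) (ω : Ω) : solY t c β y0 0 ω = y0 := by
  unfold solY J
  simp

lemma solY_dom [IsProbabilityMeasure P] (hβ : IsBrownianReal β P) (hm : ∀ s, Measurable (β s))
    (hpos : ∀ j, 0 < t (j + 1) - t j) (hsm : ∀ j, t (j + 1) - t j ≤ 1 / 200)
    (K : ℝ) (hwK : ∀ j, wt t j ≤ K * ((j : ℝ) + 2) ^ 2) {σ : ℝ} (hσ : |σ| ≤ 1)
    (hc : Coef F β t T (cf β t σ)) (y0 : ℝ) (hy : |y0| ≤ 1) (n : ℕ) (hn : 2 ≤ n) :
    ∃ R : Ω → ℝ, MemLp R n P ∧ ∀ᵐ ω ∂P, ∀ s, |solY t (cf β t σ) β y0 s ω| ≤ R ω := by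
  obtain ⟨G, hG1, _, hG2⟩ := brownian_sup hβ T (2 * n) (by omega)
  have := holder_nat n
  refine ⟨_, memLp_R hG1 (memLp_S hβ.toIsPreBrownianReal hm hc.mono hpos hsm K hwK
    (2 * n) (by omega)) (2 * T), ?_⟩
  filter_upwards [hG2] with ω hω s
  exact solY_bound hc y0 hy hω (tsum_cf_le hpos hsm hσ ω) s

lemma solY_classD [IsProbabilityMeasure P] (hβ : IsBrownianReal β P) (hm : ∀ s, Measurable (β s))
    (hpos : ∀ j, 0 < t (j + 1) - t j) (hsm : ∀ j, t (j + 1) - t j ≤ 1 / 200)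
    (K : ℝ) (hwK : ∀ j, wt t j ≤ K * ((j : ℝ) + 2) ^ 2) {σ : ℝ} (hσ : |σ| ≤ 1)
    (hc : Coef F β t T (cf β t σ)) (y0 : ℝ) (hy : |y0| ≤ 1) (p : ℝ) (hp : 0 < p) :
    ClassD P F T (fun s ω => |solY t (cf β t σ) β y0 s ω| ^ p) ∧
      MemLp (solY t (cf β t σ) β y0 T) (ENNReal.ofReal p) P := by
  obtain ⟨n, hn⟩ := exists_nat_ge (max p 2)
  have hnp : p ≤ n := (le_max_left _ _).trans hn
  have hn2 : 2 ≤ n := by exact_mod_cast (le_max_right p 2).trans hn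
  obtain ⟨R, hR, hle⟩ := solY_dom hβ hm hpos hsm K hwK hσ hc y0 hy n hn2
  have hRp : MemLp R (ENNReal.ofReal p) P := by
    refine hR.mono_exponent ?_
    rw [← ENNReal.ofReal_natCast]
    exact ENNReal.ofReal_le_ofReal hnp
  have hp0 : ENNReal.ofReal p ≠ 0 := by
    rw [Ne, ENNReal.ofReal_eq_zero]; linarith
  constructor
  · have hint := hRp.integrable_norm_rpow hp0 ENNReal.ofReal_ne_top
    rw [ENNReal.toReal_ofReal hp.le] at hint
    refine classD_of_dom (fun τ hτ hτT => ?_) hint ?_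
    · have h1 := (meas_stopped (solY_prog hc y0) τ hτ hτT).measurable
      have h2 : Measurable fun ω => |solY t (cf β t σ) β y0 (τ ω) ω| ^ p := by fun_prop
      exact h2.aestronglyMeasurable
    · filter_upwards [hle] with ω hω s _
      rw [abs_of_nonneg (by positivity)]
      refine Real.rpow_le_rpow (abs_nonneg _) ?_ hp.le
      exact (hω s).trans (le_abs_self _)
  · refine hRp.mono' ?_ ?_
    · exact ((solY_adap hc y0 T).mono (F.le T) le_rfl).aestronglyMeasurable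
    · filter_upwards [hle] with ω hω
      exact hω T

end

/-- the times -/
noncomputable def tm (T : ℝ≥0) (j : ℕ) : ℝ≥0 := T - min T (1 / 100) / ((j : ℝ≥0) + 1)

lemma tm_le (T : ℝ≥0) (j : ℕ) : tm T j ≤ T := tsub_le_self

lemma tm_coe (T : ℝ≥0) (j : ℕ) :
    (tm T j : ℝ) = T - (min T (1 / 100) : ℝ≥0) / ((j : ℝ) + 1) := by
  unfold tm
  rw [NNReal.coe_sub]
  · push_cast; rfl
  · refine (div_le_self (by simp) ?_).trans (min_le_left _ _)
    simp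

lemma tm_mono (T : ℝ≥0) : Monotone (tm T) := by
  refine monotone_nat_of_le_succ fun j => ?_
  rw [← NNReal.coe_le_coe, tm_coe, tm_coe]
  push_cast
  have h0 : (0 : ℝ) ≤ min (T : ℝ) (1 / 100) := le_min T.coe_nonneg (by norm_num)
  have : min (T : ℝ) (1 / 100) / ((j : ℝ) + 1 + 1) ≤ min (T : ℝ) (1 / 100) / ((j : ℝ) + 1) := by
    gcongr
    linarith
  linarith

lemma tm_sub (T : ℝ≥0) (j : ℕ) : ((tm T (j + 1) - tm T j : ℝ≥0) : ℝ) =
    (min T (1 / 100) : ℝ≥0) / (((j : ℝ) + 1) * ((j : ℝ) + 2)) := by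
  rw [NNReal.coe_sub (tm_mono T (Nat.le_succ j)), tm_coe, tm_coe]
  push_cast
  field_simp
  ring

lemma tm_pos {T : ℝ≥0} (hT : 0 < T) (j : ℕ) : 0 < tm T (j + 1) - tm T j := by
  rw [← NNReal.coe_pos, tm_sub]
  have : (0 : ℝ) < (min T (1 / 100) : ℝ≥0) := by
    rw [NNReal.coe_pos]
    exact lt_min hT (by positivity)
  positivity

lemma tm_small (T : ℝ≥0) (j : ℕ) : tm T (j + 1) - tm T j ≤ 1 / 200 := by
  rw [← NNReal.coe_le_coe, tm_sub]
  have h1 : ((min T (1 / 100) : ℝ≥0) : ℝ) ≤ 1 / 100 := by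
    have : min T (1 / 100) ≤ 1 / 100 := min_le_right _ _
    have h2 : ((min T (1 / 100) : ℝ≥0) : ℝ) ≤ ((1 / 100 : ℝ≥0) : ℝ) := by exact_mod_cast this
    simpa using h2
  rw [div_le_iff₀ (by positivity)]
  push_cast
  push_cast at h1
  have h3 : (2 : ℝ) ≤ ((j : ℝ) + 1) * ((j : ℝ) + 2) := by nlinarith [(Nat.cast_nonneg j : (0 : ℝ) ≤ j)]
  linarith

lemma tm_wt {T : ℝ≥0} (hT : 0 < T) (j : ℕ) :
    wt (tm T) j ≤ (1 / ((min T (1 / 100) : ℝ≥0) : ℝ)) * ((j : ℝ) + 2) ^ 2 := by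
  have h0 : (0 : ℝ) < (min T (1 / 100) : ℝ≥0) := by
    rw [NNReal.coe_pos]
    exact lt_min hT (by positivity)
  unfold wt
  rw [tm_sub]
  rw [one_div_div, div_mul_eq_mul_div, one_mul]
  gcongr
  nlinarith [(Nat.cast_nonneg j : (0 : ℝ) ≤ j)]

lemma IsSolution.congr_xi {Ω : Type*} [mΩ : MeasurableSpace Ω] {P : Measure Ω}
    {F : Filtration ℝ≥0 mΩ} {d : ℕ} {B : ℝ≥0 → Ω → E d} {T : ℝ≥0} {ξ ξ' : Ω → ℝ}
    {Y : ℝ≥0 → Ω → ℝ} {Z : ℝ≥0 → Ω → E d} (h : IsSolution P F B T ξ Y Z)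
    (he : ∀ᵐ ω ∂P, ξ ω = ξ' ω) : IsSolution P F B T ξ' Y Z where
  progY := h.progY
  progZ := h.progZ
  cont := h.cont
  sq := h.sq
  eqn := by
    obtain ⟨M, hM, h2⟩ := h.eqn
    refine ⟨M, hM, ?_⟩
    filter_upwards [h2, he] with ω h3 h4 s hs
    rw [h3 s hs, h4]

/-- Main theorem. -/
theorem main {d : ℕ} (hd : 0 < d) {T : ℝ≥0} (hT : 0 < T) {Ω : Type*} [mΩ : MeasurableSpace Ω]
    (P : Measure Ω) [IsProbabilityMeasure P] [P.IsComplete] (B : ℝ≥0 → Ω → E d)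
    (hB : IsBrownianVec P B) :
    ∃ (ξ : Ω → ℝ) (Y : ℝ≥0 → Ω → ℝ) (Z : ℝ≥0 → Ω → E d) (Y' : ℝ≥0 → Ω → ℝ) (Z' : ℝ≥0 → Ω → E d),
      StronglyMeasurable[natFilt P B hB.meas T] ξ ∧
      IsSolution P (natFilt P B hB.meas) B T ξ Y Z ∧
      IsSolution P (natFilt P B hB.meas) B T ξ Y' Z' ∧
      (∀ ω, Y 0 ω = 0 ∧ Y' 0 ω = 1) ∧
      ∀ p : ℝ, 0 < p → MemLp ξ (ENNReal.ofReal p) P ∧
        ClassD P (natFilt P B hB.meas) T (fun t ω => |Y t ω| ^ p) ∧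
        ClassD P (natFilt P B hB.meas) T (fun t ω => |Y' t ω| ^ p) := by
  set i : Fin d := ⟨0, hd⟩
  set β : ℝ≥0 → Ω → ℝ := fun s ω => B s ω i with hβdef
  set F := natFilt P B hB.meas with hF
  have hβ : IsBrownianReal β P := hB.coord i
  have hBF : ∀ s, Measurable[F s] (B s) := by
    intro s
    rw [measurable_iff_comap_le]
    refine le_trans ?_ (le_sup_left (b := MeasurableSpace.generateFrom {A : Set Ω | P A = 0}))
    exact le_iSup₂_of_le s le_rfl le_rfl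
  have hβF : ∀ s, Measurable[F s] (β s) := by
    intro s
    have h1 : Measurable fun x : E d => x i := by fun_prop
    exact h1.comp (hBF s)
  have hm : ∀ s, Measurable (β s) := fun s => (hβF s).mono (F.le s) le_rfl
  have hnull : ∀ s (A : Set Ω), P A = 0 → MeasurableSet[F s] A := by
    intro s A hA
    have h1 : MeasurableSpace.generateFrom {A : Set Ω | P A = 0} ≤ F s := le_sup_right
    exact h1 _ (MeasurableSpace.measurableSet_generateFrom (by simpa using hA))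
  have ht := tm_mono T
  have htT := tm_le T
  have hpos := tm_pos hT
  have hsm := tm_small T
  have hwK := tm_wt hT
  have hw : ∀ j, 0 ≤ wt (tm T) j := fun j => by
    unfold wt
    positivity
  -- the good set
  have hS1 := bigS_mom hβ.toIsPreBrownianReal hm ht hpos hsm (wt (tm T)) _ hw hwK 1 le_rfl
  simp only [pow_one] at hS1
  have hae : ∀ᵐ ω ∂P, ω ∈ Gd β (tm T) := by
    filter_upwards [hβ.cont, ae_lt_top (bigS_meas hm ht _) hS1.ne] with ω h1 h2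
    exact ⟨h1, h2⟩
  have hGd : ∀ s, MeasurableSet[F s] (Gd β (tm T)) := by
    intro s
    have h1 : P (Gd β (tm T))ᶜ = 0 := hae
    have h2 := (hnull s _ h1).compl
    rwa [compl_compl] at h2
  have hcp : Coef F β (tm T) T (cf β (tm T) 1) :=
    coef_cf ht htT hpos hsm hβF hGd (by simp)
  have hcm : Coef F β (tm T) T (cf β (tm T) (-1)) :=
    coef_cf ht htT hpos hsm hβF hGd (by simp)
  obtain ⟨G, hG1, _, hG2⟩ := brownian_sup hβ T 4 le_rfl
  refine ⟨solY (tm T) (cf β (tm T) (-1)) β 0 T, solY (tm T) (cf β (tm T) (-1)) β 0,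
    solZ (tm T) (cf β (tm T) (-1)) (EuclideanSpace.single i (1 : ℝ)),
    solY (tm T) (cf β (tm T) 1) β 1,
    solZ (tm T) (cf β (tm T) 1) (EuclideanSpace.single i (1 : ℝ)), ?_, ?_, ?_, ?_, ?_⟩
  · exact (solY_adap hcm 0 T).stronglyMeasurable
  · exact isSol hcm i B (fun _ _ => rfl) G hG1.1 hG2 0
  · refine (isSol hcp i B (fun _ _ => rfl) G hG1.1 hG2 1).congr_xi ?_
    filter_upwards [hae] with ω hω
    exact solY_T_eq hcp hcm hpos hsm hω
  · exact fun ω => ⟨solY_zero _ _, solY_zero _ _⟩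
  · intro p hp
    have h1 := solY_classD hβ hm hpos hsm _ hwK (by simp) hcm 0 (by simp) p hp
    have h2 := solY_classD hβ hm hpos hsm _ hwK (by simp) hcp 1 (by simp) p hp
    exact ⟨h1.2, h1.1, h2.1⟩

end Pool.Agent.R228.BS
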