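import Mathlib

/-!
# MP_3fc9e2_pr: pathwise lemmas on piecewise constant functions
-/

open MeasureTheory ProbabilityTheory Filter Topology
open scoped NNReal ENNReal

namespace Pool.Agent.R228.BS

/-- The piecewise constant function equal to `c j` on `(t j, t (j+1)]`. -/
noncomputable def pc (t : ℕ → ℝ≥0) (c : ℕ → ℝ) (s : ℝ≥0) : ℝ :=
  ∑' j, (Set.Ioc (t j) (t (j + 1))).indicator (fun _ => c j) s

/-- The sum `∑ c_j (b(t_{j+1} ∧ s) - b(t_j ∧ s))`. -/
noncomputable def J (t : ℕ → ℝ≥0) (c : ℕ → ℝ) (b : ℝ≥0 → ℝ) (s : ℝ≥0) : ℝ :=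
  ∑' j, c j * (b (min (t (j + 1)) s) - b (min (t j) s))

section
variable {t : ℕ → ℝ≥0} {T : ℝ≥0} {c : ℕ → ℝ} {b : ℝ≥0 → ℝ} {G : ℝ}

lemma ioc_unique (ht : Monotone t) {s : ℝ≥0} {j k : ℕ} (hj : s ∈ Set.Ioc (t j) (t (j + 1)))
    (hk : s ∈ Set.Ioc (t k) (t (k + 1))) : j = k := by
  rcases lt_trichotomy j k with h | h | h
  · exact absurd (hj.2.trans (ht (Nat.succ_le_of_lt h))) (not_le.2 hk.1)
  · exact h
  · exact absurd (hk.2.trans (ht (Nat.succ_le_of_lt h))) (not_le.2 hj.1)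

lemma pc_of_mem (ht : Monotone t) {s : ℝ≥0} {j : ℕ} (hj : s ∈ Set.Ioc (t j) (t (j + 1))) :
    pc t c s = c j := by
  unfold pc
  rw [tsum_eq_single j, Set.indicator_of_mem hj]
  intro k hk
  exact Set.indicator_of_notMem (fun h => hk (ioc_unique ht h hj)) _

lemma pc_of_notMem {s : ℝ≥0} (h : ∀ j, s ∉ Set.Ioc (t j) (t (j + 1))) : pc t c s = 0 := by
  unfold pc
  simp [Set.indicator_of_notMem (h _)]

lemma pc_comp (ht : Monotone t) (φ : ℝ → ℝ) (h0 : φ 0 = 0) (s : ℝ≥0) :
    φ (pc t c s) = pc t (fun j => φ (c j)) s := by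
  by_cases h : ∃ j, s ∈ Set.Ioc (t j) (t (j + 1))
  · obtain ⟨j, hj⟩ := h
    rw [pc_of_mem ht hj, pc_of_mem ht hj]
  · push Not at h
    rw [pc_of_notMem h, pc_of_notMem h, h0]

lemma pc_sub (ht : Monotone t) (c c' : ℕ → ℝ) (s : ℝ≥0) :
    pc t c s - pc t c' s = pc t (fun j => c j - c' j) s := by
  by_cases h : ∃ j, s ∈ Set.Ioc (t j) (t (j + 1))
  · obtain ⟨j, hj⟩ := h
    rw [pc_of_mem ht hj, pc_of_mem ht hj, pc_of_mem ht hj]
  · push Not at h
    rw [pc_of_notMem h, pc_of_notMem h, pc_of_notMem h, sub_zero]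

lemma abs_pc_le (ht : Monotone t) (hc : Summable fun j => |c j|) (s : ℝ≥0) :
    |pc t c s| ≤ ∑' j, |c j| := by
  by_cases h : ∃ j, s ∈ Set.Ioc (t j) (t (j + 1))
  · obtain ⟨j, hj⟩ := h
    rw [pc_of_mem ht hj]
    exact hc.le_tsum j fun k _ => abs_nonneg _
  · push Not at h
    rw [pc_of_notMem h, abs_zero]
    exact tsum_nonneg fun j => abs_nonneg _

lemma pc_finite (n : ℕ) (hn : ∀ j, n ≤ j → c j = 0) (s : ℝ≥0) :
    ∑ j ∈ Finset.range n, (Set.Ioc (t j) (t (j + 1))).indicator (fun _ => c j) s = pc t c s := by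
  unfold pc
  rw [tsum_eq_sum (s := Finset.range n)]
  intro j hj
  rw [Finset.mem_range, not_lt] at hj
  simp [hn j hj]

lemma J_finite (n : ℕ) (hn : ∀ j, n ≤ j → c j = 0) (s : ℝ≥0) :
    ∑ j ∈ Finset.range n, c j * (b (min (t (j + 1)) s) - b (min (t j) s)) = J t c b s := by
  unfold J
  rw [tsum_eq_sum (s := Finset.range n)]
  intro j hj
  rw [Finset.mem_range, not_lt] at hj
  simp [hn j hj]

lemma term_bound (hG : ∀ s ≤ T, |b s| ≤ G) (htT : ∀ j, t j ≤ T) (s : ℝ≥0) (j : ℕ) :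
    ‖c j * (b (min (t (j + 1)) s) - b (min (t j) s))‖ ≤ |c j| * (2 * G) := by
  rw [Real.norm_eq_abs, abs_mul]
  refine mul_le_mul_of_nonneg_left ?_ (abs_nonneg _)
  have h1 := hG (min (t (j + 1)) s) ((min_le_left _ _).trans (htT _))
  have h2 := hG (min (t j) s) ((min_le_left _ _).trans (htT _))
  calc |b (min (t (j + 1)) s) - b (min (t j) s)|
      ≤ |b (min (t (j + 1)) s)| + |b (min (t j) s)| := abs_sub _ _
    _ ≤ 2 * G := by linarith

lemma J_summable (hG : ∀ s ≤ T, |b s| ≤ G) (htT : ∀ j, t j ≤ T) (hc : Summable fun j => |c j|)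
    (s : ℝ≥0) : Summable fun j => c j * (b (min (t (j + 1)) s) - b (min (t j) s)) :=
  Summable.of_norm_bounded (hc.mul_right (2 * G)) fun j => term_bound hG htT s j

lemma J_cont (hb : Continuous b) (hG : ∀ s ≤ T, |b s| ≤ G) (htT : ∀ j, t j ≤ T)
    (hc : Summable fun j => |c j|) : Continuous (J t c b) := by
  unfold J
  refine continuous_tsum (fun j => ?_) (hc.mul_right (2 * G)) fun j s => term_bound hG htT s j
  fun_prop

lemma J_bound (hG : ∀ s ≤ T, |b s| ≤ G) (htT : ∀ j, t j ≤ T) (hc : Summable fun j => |c j|)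
    (s : ℝ≥0) : |J t c b s| ≤ 2 * G * ∑' j, |c j| := by
  unfold J
  have h1 := tsum_of_norm_bounded (hc.mul_right (2 * G)).hasSum
    fun j => term_bound (c := c) (b := b) hG htT s j
  rw [Real.norm_eq_abs, tsum_mul_right] at h1
  linarith

lemma J_sub (hG : ∀ s ≤ T, |b s| ≤ G) (htT : ∀ j, t j ≤ T) {c c' : ℕ → ℝ}
    (hc : Summable fun j => |c j|) (hc' : Summable fun j => |c' j|) (s : ℝ≥0) :
    J t c b s - J t c' b s = J t (fun j => c j - c' j) b s := by
  unfold J
  rw [← (J_summable hG htT hc s).tsum_sub (J_summable hG htT hc' s)]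
  refine tsum_congr fun j => ?_
  ring

lemma J_at_T (htT : ∀ j, t j ≤ T) : J t c b T = ∑' j, c j * (b (t (j + 1)) - b (t j)) := by
  unfold J
  refine tsum_congr fun j => ?_
  rw [min_eq_left (htT _), min_eq_left (htT _)]

/-- integrals of indicators -/
lemma int_ind (u v s : ℝ≥0) (huv : u ≤ v) (x : ℝ) :
    ∫ r in (0 : ℝ)..s, (Set.Ioc u v).indicator (fun _ => x) r.toNNReal =
      x * ((min v s : ℝ≥0) - (min u s : ℝ≥0)) := by
  have h1 : ∀ r ∈ Set.Ioc (0 : ℝ) s, (Set.Ioc u v).indicator (fun _ => x) r.toNNReal =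
      (Set.Ioc (u : ℝ) v).indicator (fun _ => x) r := by
    intro r hr
    have h0 : 0 ≤ r := hr.1.le
    by_cases h : r ∈ Set.Ioc (u : ℝ) v
    · rw [Set.indicator_of_mem h, Set.indicator_of_mem]
      refine ⟨?_, ?_⟩
      · rw [← NNReal.coe_lt_coe, Real.coe_toNNReal r h0]; exact h.1
      · rw [← NNReal.coe_le_coe, Real.coe_toNNReal r h0]; exact h.2
    · rw [Set.indicator_of_notMem h, Set.indicator_of_notMem]
      rintro ⟨h2, h3⟩
      refine h ⟨?_, ?_⟩
      · rw [← NNReal.coe_lt_coe, Real.coe_toNNReal r h0] at h2; exact h2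
      · rw [← NNReal.coe_le_coe, Real.coe_toNNReal r h0] at h3; exact h3
  rw [intervalIntegral.integral_of_le s.coe_nonneg]
  rw [setIntegral_congr_fun measurableSet_Ioc h1]
  rw [setIntegral_indicator measurableSet_Ioc, setIntegral_const, smul_eq_mul, mul_comm]
  congr 1
  have h2 : Set.Ioc (0 : ℝ) s ∩ Set.Ioc (u : ℝ) v = Set.Ioc (u : ℝ) (min (v : ℝ) s) := by
    rw [Set.Ioc_inter_Ioc]
    congr 1
    · exact max_eq_right u.2
    · exact min_comm _ _
  rw [h2, measureReal_def, Real.volume_Ioc]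
  rcases le_total u s with h | h
  · rw [min_eq_left h, ENNReal.toReal_ofReal]
    · push_cast; rfl
    · rw [sub_nonneg]; exact le_min huv h
  · have h3 : (min (v : ℝ) s) = s := min_eq_right (by exact_mod_cast h.trans huv)
    rw [min_eq_right h, min_eq_right (h.trans huv), h3, ENNReal.ofReal_of_nonpos]
    · simp
    · rw [sub_nonpos]; exact_mod_cast h

lemma meas_ind (u v : ℝ≥0) (x : ℝ) :
    Measurable fun r : ℝ => (Set.Ioc u v).indicator (fun _ => x) r.toNNReal :=
  (measurable_const.indicator measurableSet_Ioc).comp measurable_real_toNNReal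

lemma meas_pc (c : ℕ → ℝ) : Measurable fun r : ℝ => pc t c r.toNNReal := by
  unfold pc
  exact Measurable.tsum fun j => meas_ind _ _ _

lemma pc_intervalIntegrable (ht : Monotone t) (hc : Summable fun j => |c j|) (x y : ℝ) :
    IntervalIntegrable (fun r : ℝ => pc t c r.toNNReal) volume x y := by
  refine (intervalIntegrable_const (c := ∑' j, |c j|)).mono_fun'
    (meas_pc c).aestronglyMeasurable ?_
  refine Filter.Eventually.of_forall fun r => ?_
  simp only [Real.norm_eq_abs]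
  exact abs_pc_le ht hc _

lemma int_pc (ht : Monotone t) (htT : ∀ j, t j ≤ T) (hc : Summable fun j => |c j|) (s : ℝ≥0) :
    ∫ r in (0 : ℝ)..s, pc t c r.toNNReal = J t c (fun r => (r : ℝ)) s := by
  unfold pc J
  have hle : ∀ j, t j ≤ t (j + 1) := fun j => ht (Nat.le_succ j)
  have hG : ∀ s ≤ T, |((fun r : ℝ≥0 => (r : ℝ)) s)| ≤ (T : ℝ) := by
    intro s hs
    simp only
    rw [abs_of_nonneg s.coe_nonneg]; exact_mod_cast hs
  rw [intervalIntegral.integral_of_le s.coe_nonneg]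
  have hint : ∀ j, Integrable (fun r : ℝ => (Set.Ioc (t j) (t (j + 1))).indicator (fun _ => c j)
      r.toNNReal) (volume.restrict (Set.Ioc (0 : ℝ) s)) := by
    intro j
    refine (integrable_const (|c j|)).mono' (meas_ind _ _ _).aestronglyMeasurable ?_
    refine Filter.Eventually.of_forall fun r => ?_
    by_cases h : r.toNNReal ∈ Set.Ioc (t j) (t (j + 1))
    · rw [Set.indicator_of_mem h, Real.norm_eq_abs]
    · rw [Set.indicator_of_notMem h, norm_zero]; exact abs_nonneg _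
  have hval : ∀ j, ∫ r in Set.Ioc (0 : ℝ) s, (Set.Ioc (t j) (t (j + 1))).indicator (fun _ => c j)
      r.toNNReal = c j * ((min (t (j + 1)) s : ℝ≥0) - (min (t j) s : ℝ≥0)) := by
    intro j
    rw [← int_ind (t j) (t (j + 1)) s (hle j) (c j), intervalIntegral.integral_of_le s.coe_nonneg]
  have hnorm : ∀ j, ∫ r in Set.Ioc (0 : ℝ) s, ‖(Set.Ioc (t j) (t (j + 1))).indicator
      (fun _ => c j) r.toNNReal‖ = |c j| * ((min (t (j + 1)) s : ℝ≥0) - (min (t j) s : ℝ≥0)) := by
    intro j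
    rw [← int_ind (t j) (t (j + 1)) s (hle j) (|c j|), intervalIntegral.integral_of_le s.coe_nonneg]
    refine setIntegral_congr_fun measurableSet_Ioc fun r _ => ?_
    by_cases h : r.toNNReal ∈ Set.Ioc (t j) (t (j + 1))
    · rw [Set.indicator_of_mem h, Set.indicator_of_mem h, Real.norm_eq_abs]
    · rw [Set.indicator_of_notMem h, Set.indicator_of_notMem h, norm_zero]
  have hsum : Summable fun j => ∫ r in Set.Ioc (0 : ℝ) s, ‖(Set.Ioc (t j) (t (j + 1))).indicator
      (fun _ => c j) r.toNNReal‖ := by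
    simp_rw [hnorm]
    have hc2 : Summable fun j => |(fun j => |c j|) j| := by simpa using hc
    exact J_summable hG htT hc2 s
  have key := hasSum_integral_of_summable_integral_norm hint hsum
  rw [← key.tsum_eq]
  exact tsum_congr fun j => hval j

end

end Pool.Agent.R228.BS
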