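import Pool.Agent.R228.BS.Defs
import Pool.Agent.R228.BS.Path

/-!
# MP_3fc9e2_pr: a piecewise constant coefficient process gives a solution
-/

open MeasureTheory ProbabilityTheory Filter Topology
open scoped NNReal ENNReal

namespace Pool.Agent.R228.BS

/-- `x sin x`. -/
noncomputable def g1 (x : ℝ) : ℝ := x * Real.sin x

lemma g1_zero : g1 0 = 0 := by simp [g1]

lemma abs_g1_le (x : ℝ) : |g1 x| ≤ |x| := by
  unfold g1
  rw [abs_mul]
  exact mul_le_of_le_one_right (abs_nonneg _) (Real.abs_sin_le_one x)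

lemma measurable_g1 : Measurable g1 := by
  unfold g1; fun_prop

lemma g1_abs (x : ℝ) : |x| * Real.sin |x| = g1 x := by
  unfold g1
  rcases abs_cases x with ⟨h, _⟩ | ⟨h, _⟩
  · rw [h]
  · rw [h, Real.sin_neg]; ring

lemma meas_tsum {X : Type*} (m : MeasurableSpace X) {f : ℕ → X → ℝ}
    (h : ∀ j, Measurable[m] (f j)) : Measurable[m] (fun x => ∑' j, f j x) :=
  Measurable.tsum h

/-- Coefficient processes. -/
structure Coef {Ω : Type*} [mΩ : MeasurableSpace Ω] (F : Filtration ℝ≥0 mΩ) (β : ℝ≥0 → Ω → ℝ)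
    (t : ℕ → ℝ≥0) (T : ℝ≥0) (c : ℕ → Ω → ℝ) : Prop where
  mono : Monotone t
  le : ∀ j, t j ≤ T
  adap : ∀ s, Measurable[F s] (β s)
  meas : ∀ j, Measurable[F (t j)] (c j)
  summ : ∀ ω, Summable fun j => |c j ω|
  good : ∀ ω, ¬ Continuous (fun s => β s ω) → ∀ j, c j ω = 0

section
variable {Ω : Type*} [mΩ : MeasurableSpace Ω] {F : Filtration ℝ≥0 mΩ} {β : ℝ≥0 → Ω → ℝ}
  {t : ℕ → ℝ≥0} {T : ℝ≥0} {c : ℕ → Ω → ℝ} {P : Measure Ω}

lemma Coef.comp (hc : Coef F β t T c) {φ : ℝ → ℝ} (hφ : Measurable φ)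
    (hle : ∀ x, |φ x| ≤ |x|) : Coef F β t T (fun j ω => φ (c j ω)) where
  mono := hc.mono
  le := hc.le
  adap := hc.adap
  meas j := hφ.comp (hc.meas j)
  summ ω := Summable.of_nonneg_of_le (fun j => abs_nonneg _) (fun j => hle _) (hc.summ ω)
  good ω h j := by
    have := hle (c j ω)
    rw [hc.good ω h j, abs_zero] at this
    rw [hc.good ω h j]
    exact abs_nonpos_iff.1 this

lemma adapt_J (hc : Coef F β t T c) (b : ℝ≥0 → Ω → ℝ) (hb : ∀ r, Measurable[F r] (b r)) (s : ℝ≥0) :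
    Measurable[F s] (fun ω => J t (fun j => c j ω) (fun r => b r ω) s) := by
  unfold J
  refine meas_tsum (F s) fun j => ?_
  rcases le_total s (t j) with h | h
  · have h1 : s ≤ t (j + 1) := h.trans (hc.mono (Nat.le_succ j))
    simp only [min_eq_right h, min_eq_right h1, sub_self, mul_zero]
    exact @measurable_const _ _ _ (F s) _
  · have h1 : Measurable[F s] (c j) := (hc.meas j).mono (F.mono h) le_rfl
    have h2 : Measurable[F s] (b (min (t (j + 1)) s)) :=
      (hb _).mono (F.mono (min_le_right _ _)) le_rfl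
    have h3 : Measurable[F s] (b (min (t j) s)) :=
      (hb _).mono (F.mono (min_le_right _ _)) le_rfl
    exact h1.mul (h2.sub h3)

lemma path_bdd (β : ℝ≥0 → Ω → ℝ) (T : ℝ≥0) (ω : Ω) (h : Continuous fun s => β s ω) :
    ∃ G : ℝ, ∀ s ≤ T, |β s ω| ≤ G := by
  obtain ⟨G, hG⟩ := (isCompact_Icc (a := (0 : ℝ≥0)) (b := T)).exists_bound_of_continuousOn
    h.continuousOn
  exact ⟨G, fun s hs => hG s ⟨by simp, hs⟩⟩

lemma id_bdd (T : ℝ≥0) : ∀ s ≤ T, |((fun r : ℝ≥0 => (r : ℝ)) s)| ≤ (T : ℝ) := by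
  intro s hs
  simp only [NNReal.abs_eq]
  exact_mod_cast hs

lemma cont_M (hc : Coef F β t T c) (ω : Ω) :
    Continuous (J t (fun j => c j ω) (fun r => β r ω)) := by
  by_cases h : Continuous fun s => β s ω
  · obtain ⟨G, hG⟩ := path_bdd β T ω h
    exact J_cont h hG hc.le (hc.summ ω)
  · have h0 := hc.good ω h
    have : J t (fun j => c j ω) (fun r => β r ω) = fun _ => 0 := by
      funext s
      unfold J
      simp [h0]
    rw [this]
    exact continuous_const

lemma cont_D (hc : Coef F β t T c) (ω : Ω) :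
    Continuous (J t (fun j => c j ω) (fun r => (r : ℝ))) :=
  J_cont NNReal.continuous_coe (id_bdd T) hc.le (hc.summ ω)

/-- The solution process `Y`. -/
noncomputable def solY (t : ℕ → ℝ≥0) (c : ℕ → Ω → ℝ) (β : ℝ≥0 → Ω → ℝ) (y0 : ℝ) (s : ℝ≥0)
    (ω : Ω) : ℝ :=
  y0 - J t (fun j => g1 (c j ω)) (fun r => (r : ℝ)) s + J t (fun j => c j ω) (fun r => β r ω) s

/-- The solution process `Z`. -/
noncomputable def solZ {d : ℕ} (t : ℕ → ℝ≥0) (c : ℕ → Ω → ℝ) (e : E d) (s : ℝ≥0) (ω : Ω) : E d :=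
  pc t (fun j => c j ω) s • e

lemma solY_adap (hc : Coef F β t T c) (y0 : ℝ) (s : ℝ≥0) :
    Measurable[F s] (solY t c β y0 s) := by
  have h1 := adapt_J (hc.comp measurable_g1 abs_g1_le) (fun r _ => (r : ℝ))
    (fun r => @measurable_const _ _ _ (F r) _) s
  have h2 := adapt_J hc β hc.adap s
  exact ((@measurable_const _ _ _ (F s) y0).sub h1).add h2

lemma solY_cont (hc : Coef F β t T c) (y0 : ℝ) (ω : Ω) :
    Continuous fun s => solY t c β y0 s ω := by
  unfold solY
  exact (continuous_const.sub (cont_D (hc.comp measurable_g1 abs_g1_le) ω)).add (cont_M hc ω)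

lemma solY_prog (hc : Coef F β t T c) (y0 : ℝ) : IsStronglyProgressive F (solY t c β y0) :=
  StronglyAdapted.isStronglyProgressive_of_continuous
    (fun s => (solY_adap hc y0 s).stronglyMeasurable) (solY_cont hc y0)

lemma pc_prog (hc : Coef F β t T c) (i : ℝ≥0) :
    Measurable[Subtype.instMeasurableSpace.prod (F i)]
      fun p : Set.Iic i × Ω => pc t (fun j => c j p.2) (p.1 : ℝ≥0) := by
  unfold pc
  refine meas_tsum _ fun j => ?_
  rcases le_total i (t j) with h | h
  · have : (fun p : Set.Iic i × Ω => (Set.Ioc (t j) (t (j + 1))).indicator (fun _ => c j p.2)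
        (p.1 : ℝ≥0)) = fun _ => 0 := by
      funext p
      refine Set.indicator_of_notMem ?_ _
      intro hp
      exact absurd ((Set.mem_Iic.1 p.1.2).trans h) (not_le.2 hp.1)
    rw [this]
    exact @measurable_const _ _ _ (Subtype.instMeasurableSpace.prod (F i)) _
  · have h1 : Measurable[F i] (c j) := (hc.meas j).mono (F.mono h) le_rfl
    have h2 : Measurable[Subtype.instMeasurableSpace.prod (F i)]
        (fun p : Set.Iic i × Ω => c j p.2) := h1.comp (@measurable_snd _ _ _ (F i))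
    have h3 : MeasurableSet[Subtype.instMeasurableSpace.prod (F i)]
        {p : Set.Iic i × Ω | (p.1 : ℝ≥0) ∈ Set.Ioc (t j) (t (j + 1))} := by
      have h4 : Measurable[Subtype.instMeasurableSpace.prod (F i)]
          (fun p : Set.Iic i × Ω => (p.1 : ℝ≥0)) :=
        measurable_subtype_coe.comp (@measurable_fst _ _ _ (F i))
      exact h4 measurableSet_Ioc
    have h5 : (fun p : Set.Iic i × Ω => (Set.Ioc (t j) (t (j + 1))).indicator (fun _ => c j p.2)
        (p.1 : ℝ≥0)) = {p : Set.Iic i × Ω | (p.1 : ℝ≥0) ∈ Set.Ioc (t j) (t (j + 1))}.indicator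
          (fun p => c j p.2) := by
      funext p
      by_cases hp : (p.1 : ℝ≥0) ∈ Set.Ioc (t j) (t (j + 1))
      · rw [Set.indicator_of_mem hp, Set.indicator_of_mem (by simpa using hp)]
      · rw [Set.indicator_of_notMem hp, Set.indicator_of_notMem (by simpa using hp)]
    rw [h5]
    exact h2.indicator h3

lemma solZ_prog {d : ℕ} (hc : Coef F β t T c) (e : E d) :
    IsStronglyProgressive F (solZ t c e) := by
  intro i
  have h1 := pc_prog hc i
  have h2 : StronglyMeasurable[Subtype.instMeasurableSpace.prod (F i)]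
      fun p : Set.Iic i × Ω => pc t (fun j => c j p.2) (p.1 : ℝ≥0) := h1.stronglyMeasurable
  exact h2.smul_const e

end

end Pool.Agent.R228.BS
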