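import Mathlib

/-!
# MP_3fc9e2_pr: statements of the independent pieces

Piece A (`StmA`): moments of the running maximum of a real Brownian motion (dyadic chaining).
Piece B (`StmB1`, `StmB2`): bounds for one step of the Markov chain used in the construction.
-/

open MeasureTheory ProbabilityTheory Filter Topology
open scoped NNReal ENNReal

namespace Pool.Agent.R228.BS

/-- One step of the chain: `v` is the length of the time step, `x` the present state, `y` the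
increment of the Brownian motion. -/
noncomputable def stp (v x y : ℝ) : ℝ :=
  if |x| < 1 then x * (1 + y / (4 * √v))
  else x - 4 * Real.pi * ⌊x / (4 * Real.pi * v)⌋ * v + Real.pi * y

/-- Piece A. -/
def StmA : Prop :=
  ∀ {Ω : Type} [MeasurableSpace Ω] {P : Measure Ω} {B : ℝ≥0 → Ω → ℝ} (_ : IsBrownianReal B P)
    (T : ℝ≥0) (q : ℕ) (_ : 4 ≤ q),
    ∃ G : Ω → ℝ, MemLp G q P ∧ (∀ ω, 0 ≤ G ω) ∧ ∀ᵐ ω ∂P, ∀ t ≤ T, |B t ω| ≤ G ω

/-- Piece B1. -/
def StmB1 : Prop :=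
  ∀ (v : ℝ≥0), 0 < v → v ≤ 1 / 200 → ∀ x : ℝ,
    ∫⁻ y, ENNReal.ofReal (√|stp v x y|) ∂(gaussianReal 0 v) ≤
      ENNReal.ofReal (996 / 1000 * √|x|)

/-- Piece B2. -/
def StmB2 : Prop :=
  ∀ q : ℕ, 1 ≤ q → ∃ C : ℝ, 0 ≤ C ∧ ∀ (v : ℝ≥0), 0 < v → v ≤ 1 / 200 → ∀ x : ℝ,
    ∫⁻ y, ENNReal.ofReal (|stp v x y| ^ q) ∂(gaussianReal 0 v) ≤ ENNReal.ofReal (C * √|x|)

end Pool.Agent.R228.BS
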